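import Mathlib
import Pool.Agent.Lib.MP_ec2ab1_pr_h25b.Main

set_option autoImplicit false

/-!
# Fisher information of `X+Y` and `X+Z`: definitions
-/

namespace Pool.Agent.Lib.MP_ec2ab1_pr_h53q2

open MeasureTheory ProbabilityTheory Polynomial
open scoped ENNReal NNReal
open Pool.Agent.Lib.MP_ec2ab1_pr_h25b (ga et GG bf kf)

/-- The Fisher information of a law on the line: the infimum, over all locally absolutely continuous
densities `f` of the law (there is at most one), of `∫_{f > 0} f'^2 / f`; it is `∞` if the law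
has no such density. -/
noncomputable def fisher (ν : Measure ℝ) : ℝ≥0∞ :=
  ⨅ f ∈ {f : ℝ → ℝ | (∀ a b, AbsolutelyContinuousOnInterval f a b) ∧ (∀ x, 0 ≤ f x) ∧
      ν = volume.withDensity (fun x => ENNReal.ofReal (f x))},
    ∫⁻ x in {x | 0 < f x}, ENNReal.ofReal (deriv f x ^ 2 / f x)

/-- the weights `n! / 2^n` -/
noncomputable def w (n : ℕ) : ℝ := (n.factorial : ℝ) / 2 ^ n

/-- Hermite polynomials for the law `N(0,2)` -/
noncomputable def HP : ℕ → ℝ[X]
  | 0 => 1
  | n + 1 => C (1 / 2) * X * HP n - derivative (HP n)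

/-- Hermite polynomials for the law `N(0,1)`, divided by `n!` -/
noncomputable def hq (n : ℕ) : ℝ[X] :=
  C ((n.factorial : ℝ)⁻¹) * (hermite n).map (Int.castRingHom ℝ)

/-- coefficients of a density with respect to `N(0,1)` -/
noncomputable def cf (p : ℝ → ℝ) (n : ℕ) : ℝ := ∫ x, (hq n).eval x * p x ∂ga

/-- Cauchy square of a sequence -/
noncomputable def csq (s : ℕ → ℝ) (n : ℕ) : ℝ := ∑ ij ∈ Finset.HasAntidiagonal.antidiagonal n, s ij.1 * s ij.2

/-- partial sums of a Hermite series -/
noncomputable def PS (N : ℕ) (c : ℕ → ℝ) : ℝ[X] := ∑ n ∈ Finset.range (N + 1), C (c n) * HP n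

end Pool.Agent.Lib.MP_ec2ab1_pr_h53q2
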