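import Mathlib
import Pool.Agent.Lib.MP_ec2ab1_pr_h53q2.Defs

set_option autoImplicit false

/-!
# The coefficient inequality behind the comparison of Fisher informations
-/

namespace Pool.Agent.Lib.MP_ec2ab1_pr_h53q2

open MeasureTheory ProbabilityTheory Polynomial
open scoped ENNReal NNReal

/-- the coefficient of `X ^ (2 N)` in the product of a polynomial of degree at most `2 N` and its
reflection -/
private theorem coeff_mul_reflect (f : ℝ[X]) (M : ℕ) :
    (f * reflect M f).coeff M = ∑ n ∈ Finset.range (M + 1), f.coeff n ^ 2 := by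
  rw [coeff_mul, Finset.Nat.sum_antidiagonal_eq_sum_range_succ (fun i j => f.coeff i *
    (reflect M f).coeff j)]
  refine Finset.sum_congr rfl fun n hn => ?_
  have hn' : n ≤ M := Nat.lt_succ_iff.1 (Finset.mem_range.1 hn)
  rw [coeff_reflect, revAt_le (Nat.sub_le _ _), Nat.sub_sub_self hn', sq]

private theorem fin_circle (p : ℝ[X]) (N : ℕ) (hp : p.natDegree ≤ N) :
    (∑ i ∈ Finset.range (N + 1), p.coeff i ^ 2) ^ 2 ≤
      ∑ n ∈ Finset.range (2 * N + 1), (p * p).coeff n ^ 2 := by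
  set q := reflect N p with hq
  have hqd : q.natDegree ≤ N := by
    refine natDegree_reflect_le.trans ?_
    exact max_le le_rfl hp
  have h1 : reflect (N + N) (p * p) = q * q := reflect_mul p p hp hp
  have h2 : reflect (N + N) (p * q) = q * p := by
    rw [reflect_mul p q hp hqd, hq, reflect_reflect]
  have e1 := coeff_mul_reflect (p * p) (N + N)
  have e2 := coeff_mul_reflect (p * q) (N + N)
  rw [h1] at e1
  rw [h2] at e2
  have e3 : p * p * (q * q) = p * q * (q * p) := by ring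
  rw [e3, e2] at e1
  rw [two_mul, ← e1]
  have e4 : (p * q).coeff N = ∑ i ∈ Finset.range (N + 1), p.coeff i ^ 2 := coeff_mul_reflect p N
  rw [← e4]
  exact Finset.single_le_sum (f := fun n => (p * q).coeff n ^ 2) (fun _ _ => sq_nonneg _)
    (Finset.mem_range.2 (by omega))

private theorem csq_trunc (a : ℕ → ℝ) (N : ℕ) :
    (∑ i ∈ Finset.range (N + 1), a i ^ 2) ^ 2 ≤
      ∑' n, csq (fun i => if i < N + 1 then a i else 0) n ^ 2 := by
  set b : ℕ → ℝ := fun i => if i < N + 1 then a i else 0 with hb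
  set p : ℝ[X] := ∑ i ∈ Finset.range (N + 1), monomial i (a i) with hp
  have hc : ∀ i, p.coeff i = b i := by
    intro i
    simp only [hp, hb, finsetSum_coeff, coeff_monomial, Finset.sum_ite_eq', Finset.mem_range]
  have hd : p.natDegree ≤ N := by
    rw [natDegree_le_iff_coeff_eq_zero]
    intro i hi
    rw [hc, hb]
    simp only
    rw [if_neg (by omega)]
  have h := fin_circle p N hd
  have e1 : ∀ n, (p * p).coeff n = csq b n := by
    intro n
    rw [coeff_mul, csq]
    exact Finset.sum_congr rfl fun ij _ => by rw [hc, hc]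
  have e2 : ∑ i ∈ Finset.range (N + 1), p.coeff i ^ 2 = ∑ i ∈ Finset.range (N + 1), a i ^ 2 :=
    Finset.sum_congr rfl fun i hi => by
      rw [hc, hb]
      simp only
      rw [if_pos (Finset.mem_range.1 hi)]
  rw [e2] at h
  refine h.trans ?_
  rw [tsum_eq_sum (s := Finset.range (2 * N + 1))]
  · exact le_of_eq (Finset.sum_congr rfl fun n _ => by rw [e1])
  · intro n hn
    rw [← e1, coeff_eq_zero_of_natDegree_lt]
    · simp
    · have h3 := natDegree_mul_le (p := p) (q := p)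
      have h4 : 2 * N + 1 ≤ n := not_lt.1 fun h => hn (Finset.mem_range.2 h)
      omega

/-- ROW A1 -/
theorem circle (a : ℕ → ℝ) (ha : Summable fun n => |a n|) :
    Summable (fun n => csq a n ^ 2) ∧ (∑' n, a n ^ 2) ^ 2 ≤ ∑' n, csq a n ^ 2 := by
  -- the dominating sequence
  set t : ℕ → ℝ := fun n => csq (fun i => |a i|) n with ht
  have ht0 : ∀ n, 0 ≤ t n := fun n =>
    Finset.sum_nonneg fun ij _ => mul_nonneg (abs_nonneg _) (abs_nonneg _)
  have hts : Summable t := by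
    have h := summable_norm_sum_mul_antidiagonal_of_summable_norm (f := fun i => |a i|)
      (g := fun i => |a i|) (by simpa using ha) (by simpa using ha)
    refine h.of_norm
  have hT : ∀ n, t n ≤ ∑' k, t k := fun n => hts.le_tsum n fun k _ => ht0 k
  have hts2 : Summable fun n => t n ^ 2 := by
    refine Summable.of_nonneg_of_le (fun n => sq_nonneg _) (fun n => ?_) (hts.mul_left (∑' k, t k))
    rw [sq]
    exact mul_le_mul_of_nonneg_right (hT n) (ht0 n)
  have hle : ∀ (b : ℕ → ℝ), (∀ i, |b i| ≤ |a i|) → ∀ n, |csq b n| ≤ t n := by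
    intro b hb n
    refine (Finset.abs_sum_le_sum_abs _ _).trans (Finset.sum_le_sum fun ij _ => ?_)
    rw [abs_mul]
    exact mul_le_mul (hb _) (hb _) (abs_nonneg _) (abs_nonneg _)
  have hle2 : ∀ (b : ℕ → ℝ), (∀ i, |b i| ≤ |a i|) → ∀ n, ‖csq b n ^ 2‖ ≤ t n ^ 2 := by
    intro b hb n
    rw [Real.norm_eq_abs, abs_pow]
    exact pow_le_pow_left₀ (abs_nonneg _) (hle b hb n) 2
  refine ⟨Summable.of_norm_bounded hts2 (hle2 a fun _ => le_rfl), ?_⟩
  -- limit
  have hA : Summable fun n => a n ^ 2 := by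
    have hab : ∀ n, |a n| ≤ ∑' k, |a k| := fun n => ha.le_tsum n fun k _ => abs_nonneg _
    refine Summable.of_nonneg_of_le (fun n => sq_nonneg _) (fun n => ?_)
      (ha.mul_left (∑' k, |a k|))
    rw [← sq_abs, sq]
    exact mul_le_mul_of_nonneg_right (hab n) (abs_nonneg _)
  have l1 : Filter.Tendsto (fun N => (∑ i ∈ Finset.range (N + 1), a i ^ 2) ^ 2) Filter.atTop
      (nhds ((∑' n, a n ^ 2) ^ 2)) :=
    ((hA.hasSum.tendsto_sum_nat.comp (Filter.tendsto_add_atTop_nat 1)).pow 2)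
  have l2 : Filter.Tendsto (fun N => ∑' n, csq (fun i => if i < N + 1 then a i else 0) n ^ 2)
      Filter.atTop (nhds (∑' n, csq a n ^ 2)) := by
    refine tendsto_tsum_of_dominated_convergence hts2 (fun n => ?_)
      (Filter.Eventually.of_forall fun N n => hle2 _ (fun i => ?_) n)
    · refine tendsto_const_nhds.congr' ?_
      filter_upwards [Filter.eventually_ge_atTop n] with N hN
      congr 1
      refine Finset.sum_congr rfl fun ij hij => ?_
      have h := Finset.HasAntidiagonal.mem_antidiagonal.1 hij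
      beta_reduce
      rw [if_pos (by omega), if_pos (by omega)]
    · split_ifs
      · exact le_rfl
      · simp
  exact le_of_tendsto_of_tendsto' l1 l2 fun N => csq_trunc a N

/-! ### The weights -/

private theorem J_int (n : ℕ) :
    IntegrableOn (fun y : ℝ => y ^ n * Real.exp (-2 * y)) (Set.Ioi 0) := by
  have h := integrableOn_rpow_mul_exp_neg_mul_rpow (p := 1) (s := (n : ℝ)) (b := 2)
    (by have : (0 : ℝ) ≤ n := Nat.cast_nonneg n
        linarith) one_pos two_pos
  refine h.congr_fun (fun y hy => ?_) measurableSet_Ioi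
  simp only [Real.rpow_natCast, Real.rpow_one]

private theorem J_val (n : ℕ) :
    ∫ y in Set.Ioi (0 : ℝ), y ^ n * Real.exp (-2 * y) = (n.factorial : ℝ) / 2 ^ (n + 1) := by
  have h := Real.integral_rpow_mul_exp_neg_mul_Ioi (a := (n : ℝ) + 1) (r := 2)
    (by positivity) two_pos
  rw [Real.Gamma_nat_eq_factorial] at h
  have e : ∫ y in Set.Ioi (0 : ℝ), y ^ n * Real.exp (-2 * y) =
      ∫ y in Set.Ioi (0 : ℝ), y ^ ((n : ℝ) + 1 - 1) * Real.exp (-(2 * y)) := by
    refine setIntegral_congr_fun measurableSet_Ioi fun y _ => ?_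
    simp only [add_sub_cancel_right, Real.rpow_natCast, neg_mul]
  rw [e, h]
  have e2 : ((1 : ℝ) / 2) ^ ((n : ℝ) + 1) = (1 / 2) ^ (n + 1) := by
    rw [← Real.rpow_natCast]
    push_cast
    rfl
  rw [e2, one_div, inv_pow]
  ring

private noncomputable def mo (n : ℕ) : ℝ :=
  ∫ y in Set.Ioi (1 / 2 : ℝ), (2 * y - 1) * Real.exp (-2 * y) * y ^ n

private theorem mo_int0 (n : ℕ) :
    IntegrableOn (fun y : ℝ => (2 * y - 1) * Real.exp (-2 * y) * y ^ n) (Set.Ioi 0) := by
  have h : IntegrableOn (fun y : ℝ => 2 * (y ^ (n + 1) * Real.exp (-2 * y)) -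
    y ^ n * Real.exp (-2 * y)) (Set.Ioi 0) := ((J_int (n + 1)).const_mul 2).sub (J_int n)
  refine IntegrableOn.congr_fun h (fun y _ => ?_) measurableSet_Ioi
  ring

private theorem mo_int (n : ℕ) :
    IntegrableOn (fun y : ℝ => (2 * y - 1) * Real.exp (-2 * y) * y ^ n) (Set.Ioi (1 / 2)) :=
  (mo_int0 n).mono_set (Set.Ioi_subset_Ioi (by norm_num))

private theorem mo_total (n : ℕ) :
    ∫ y in Set.Ioi (0 : ℝ), (2 * y - 1) * Real.exp (-2 * y) * y ^ n = n * w n / 2 := by
  have e : ∫ y in Set.Ioi (0 : ℝ), (2 * y - 1) * Real.exp (-2 * y) * y ^ n =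
      ∫ y in Set.Ioi (0 : ℝ), (2 * (y ^ (n + 1) * Real.exp (-2 * y)) - y ^ n * Real.exp (-2 * y)) := by
    refine setIntegral_congr_fun measurableSet_Ioi fun y _ => ?_
    ring
  rw [e, integral_sub ((J_int (n + 1)).const_mul 2) (J_int n), integral_const_mul, J_val, J_val, w,
    Nat.factorial_succ]
  push_cast
  field_simp
  ring

private theorem mo_split (n : ℕ) :
    mo n = n * w n / 2 + ∫ y in Set.Ioc (0 : ℝ) (1 / 2),
      (1 - 2 * y) * Real.exp (-2 * y) * y ^ n := by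
  have hu : Set.Ioc (0 : ℝ) (1 / 2) ∪ Set.Ioi (1 / 2) = Set.Ioi 0 :=
    Set.Ioc_union_Ioi_eq_Ioi (by norm_num)
  have h := setIntegral_union (f := fun y : ℝ => (2 * y - 1) * Real.exp (-2 * y) * y ^ n)
    (μ := volume) (s := Set.Ioc (0 : ℝ) (1 / 2)) (t := Set.Ioi (1 / 2))
    (Set.disjoint_left.2 fun y h1 h2 => not_lt.2 h1.2 h2) measurableSet_Ioi
    ((mo_int0 n).mono_set (by rw [← hu]; exact Set.subset_union_left)) (mo_int n)
  rw [hu, mo_total] at h
  have e : ∫ y in Set.Ioc (0 : ℝ) (1 / 2), (1 - 2 * y) * Real.exp (-2 * y) * y ^ n =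
      - ∫ y in Set.Ioc (0 : ℝ) (1 / 2), (2 * y - 1) * Real.exp (-2 * y) * y ^ n := by
    rw [← integral_neg]
    refine setIntegral_congr_fun measurableSet_Ioc fun y _ => ?_
    ring
  rw [e, mo]
  linarith

private theorem mo_ge (n : ℕ) : n * w n / 2 ≤ mo n := by
  rw [mo_split]
  have h : 0 ≤ ∫ y in Set.Ioc (0 : ℝ) (1 / 2), (1 - 2 * y) * Real.exp (-2 * y) * y ^ n := by
    refine setIntegral_nonneg measurableSet_Ioc fun y hy => ?_
    have h1 : 0 ≤ 1 - 2 * y := by linarith [hy.2]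
    have h2 : 0 ≤ y := hy.1.le
    positivity
  linarith

private theorem mo_le {n : ℕ} (hn : 3 ≤ n) : mo n ≤ 361 / 360 * (n * w n / 2) := by
  rw [mo_split]
  have h1 : ∫ y in Set.Ioc (0 : ℝ) (1 / 2), (1 - 2 * y) * Real.exp (-2 * y) * y ^ n ≤
      ∫ y in Set.Ioc (0 : ℝ) (1 / 2), (y ^ n - 2 * y ^ (n + 1)) := by
    refine setIntegral_mono_on ?_ ?_ measurableSet_Ioc fun y hy => ?_
    · exact ((by fun_prop : Continuous fun y : ℝ => (1 - 2 * y) * Real.exp (-2 * y) *
        y ^ n).integrableOn_Icc).mono_set Set.Ioc_subset_Icc_self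
    · exact ((by fun_prop : Continuous fun y : ℝ => y ^ n - 2 * y ^ (n + 1)).integrableOn_Icc).mono_set
        Set.Ioc_subset_Icc_self
    · have a1 : 0 ≤ 1 - 2 * y := by linarith [hy.2]
      have a2 : 0 ≤ y := hy.1.le
      have a3 : Real.exp (-2 * y) ≤ 1 := Real.exp_le_one_iff.2 (by linarith)
      have a4 : (1 - 2 * y) * Real.exp (-2 * y) * y ^ n ≤ (1 - 2 * y) * 1 * y ^ n := by gcongr
      refine a4.trans (le_of_eq (by ring))
  have h2 : ∫ y in Set.Ioc (0 : ℝ) (1 / 2), (y ^ n - 2 * y ^ (n + 1)) =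
      (1 / 2) ^ (n + 1) / ((n + 1) * (n + 2)) := by
    rw [← intervalIntegral.integral_of_le (by norm_num), intervalIntegral.integral_sub
      ((by fun_prop : Continuous fun y : ℝ => y ^ n).intervalIntegrable _ _)
      ((by fun_prop : Continuous fun y : ℝ => 2 * y ^ (n + 1)).intervalIntegrable _ _), intervalIntegral.integral_const_mul, integral_pow, integral_pow]
    have : (n : ℝ) + 1 ≠ 0 := by positivity
    have : (n : ℝ) + 2 ≠ 0 := by positivity
    push_cast
    simp only [ne_eq, Nat.add_eq_zero_iff, one_ne_zero, and_false, not_false_eq_true, zero_pow,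
      sub_zero]
    field_simp
    ring
  have h3 : (1 / 2 : ℝ) ^ (n + 1) / ((n + 1) * (n + 2)) ≤ 1 / 360 * (n * w n / 2) := by
    have hn' : (3 : ℝ) ≤ n := by exact_mod_cast hn
    have hf : (6 : ℝ) ≤ n.factorial := by
      have h := Nat.factorial_le hn
      have h6 : Nat.factorial 3 = 6 := rfl
      rw [h6] at h
      exact_mod_cast h
    have e : 1 / 360 * ((n : ℝ) * w n / 2) = (1 / 2) ^ (n + 1) * (n * n.factorial / 360) := by
      rw [w, one_div_pow]
      field_simp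
      ring
    rw [e, div_eq_mul_one_div]
    refine mul_le_mul_of_nonneg_left ?_ (by positivity)
    have h4 : (1 : ℝ) / ((n + 1) * (n + 2)) ≤ 1 / 20 := by
      apply one_div_le_one_div_of_le (by norm_num)
      nlinarith
    have h5 : (18 : ℝ) ≤ n * n.factorial := by nlinarith
    linarith
  linarith

private noncomputable def W (y : ℝ) : ℝ≥0∞ := ENNReal.ofReal ((2 * y - 1) * Real.exp (-2 * y))

private theorem mo_lint (n : ℕ) (c : ℝ) :
    ∫⁻ y in Set.Ioi (1 / 2 : ℝ), W y * ENNReal.ofReal (c ^ 2 * y ^ n) =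
      ENNReal.ofReal (c ^ 2 * mo n) := by
  have hpos : ∀ y ∈ Set.Ioi (1 / 2 : ℝ), 0 ≤ (2 * y - 1) * Real.exp (-2 * y) * y ^ n := by
    intro y hy
    have h1 : (1 / 2 : ℝ) < y := hy
    have h2 : 0 ≤ 2 * y - 1 := by linarith
    have h3 : 0 ≤ y := by linarith
    positivity
  rw [mo, ← integral_const_mul, ofReal_integral_eq_lintegral_ofReal ((mo_int n).const_mul _)]
  · refine setLIntegral_congr_fun measurableSet_Ioi fun y hy => ?_
    have h1 : (1 / 2 : ℝ) < y := hy
    have h2 : 0 ≤ 2 * y - 1 := by linarith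
    rw [W, ← ENNReal.ofReal_mul (by positivity)]
    congr 1
    ring
  · refine (ae_restrict_iff' measurableSet_Ioi).2 (Filter.Eventually.of_forall fun y hy => ?_)
    exact mul_nonneg (sq_nonneg _) (hpos y hy)

private theorem csq_scale (s : ℕ → ℝ) (r : ℝ) (n : ℕ) :
    csq (fun i => s i * r ^ i) n = csq s n * r ^ n := by
  unfold csq
  rw [Finset.sum_mul]
  refine Finset.sum_congr rfl fun ij hij => ?_
  rw [← Finset.HasAntidiagonal.mem_antidiagonal.1 hij, pow_add]
  ring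

/-- the pointwise inequality -/
private theorem point (s : ℕ → ℝ) (hs : ∀ r : ℝ, 0 ≤ r → Summable fun n => |s n| * r ^ n)
    (y : ℝ) (hy : 0 ≤ y) :
    ENNReal.ofReal (2 * s 0 ^ 2) * ∑' n : ℕ, ENNReal.ofReal (s (n + 1) ^ 2 * y ^ (n + 1)) ≤
      ∑' n : ℕ, ENNReal.ofReal (csq s (n + 1) ^ 2 * y ^ (n + 1)) := by
  set r := Real.sqrt y with hr
  have hr0 : 0 ≤ r := Real.sqrt_nonneg _
  have hry : r ^ 2 = y := Real.sq_sqrt hy
  have h := circle (fun i => s i * r ^ i) (by
    have h := hs r hr0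
    refine h.congr fun n => ?_
    rw [abs_mul, abs_of_nonneg (pow_nonneg hr0 n)])
  have hA : Summable fun n => (s n * r ^ n) ^ 2 := by
    have h1 := hs r hr0
    have hab : ∀ n, |s n| * r ^ n ≤ ∑' k, |s k| * r ^ k := fun n =>
      h1.le_tsum n fun k _ => by positivity
    refine Summable.of_nonneg_of_le (fun n => sq_nonneg _) (fun n => ?_)
      (h1.mul_left (∑' k, |s k| * r ^ k))
    have e : (s n * r ^ n) ^ 2 = (|s n| * r ^ n) * (|s n| * r ^ n) := by
      rw [mul_pow, ← sq_abs]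
      ring
    rw [e]
    exact mul_le_mul_of_nonneg_right (hab n) (by positivity)
  have eA : ∀ n, (s n * r ^ n) ^ 2 = s n ^ 2 * y ^ n := fun n => by
    rw [← hry]
    ring
  have eC : ∀ n, csq (fun i => s i * r ^ i) n ^ 2 = csq s n ^ 2 * y ^ n := fun n => by
    rw [csq_scale, ← hry]
    ring
  obtain ⟨hC, h⟩ := h
  simp_rw [eC] at hC h
  simp_rw [eA] at hA h
  rw [hA.tsum_eq_zero_add, hC.tsum_eq_zero_add] at h
  have e0 : csq s 0 = s 0 ^ 2 := by simp [csq, sq]
  simp only [pow_zero, mul_one] at h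
  rw [e0] at h
  have hA' : Summable fun n => s (n + 1) ^ 2 * y ^ (n + 1) := (summable_nat_add_iff 1).2 hA
  have hC' : Summable fun n => csq s (n + 1) ^ 2 * y ^ (n + 1) := (summable_nat_add_iff 1).2 hC
  rw [← ENNReal.ofReal_tsum_of_nonneg (fun n => by positivity) hA',
    ← ENNReal.ofReal_tsum_of_nonneg (fun n => by positivity) hC',
    ← ENNReal.ofReal_mul (by positivity)]
  refine ENNReal.ofReal_le_ofReal ?_
  have h5 := sq_nonneg (∑' n, s (n + 1) ^ 2 * y ^ (n + 1))
  nlinarith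

/-- ROW A2 (uses A1) -/
theorem series_ineq (s : ℕ → ℝ) (hs : ∀ r : ℝ, 0 ≤ r → Summable fun n => |s n| * r ^ n)
    (_h0 : 0 ≤ s 0) (h1 : s 1 = 0) (h2 : s 2 = 0) :
    ENNReal.ofReal (2 * (360 / 361) * s 0 ^ 2) * ∑' n : ℕ, ENNReal.ofReal (n * w n * s n ^ 2) ≤
      ∑' n : ℕ, ENNReal.ofReal (n * w n * csq s n ^ 2) := by
  have hW : Measurable W := by unfold W; fun_prop
  -- integrate the pointwise inequality
  have hI : ENNReal.ofReal (2 * s 0 ^ 2) * ∑' n : ℕ, ENNReal.ofReal (s (n + 1) ^ 2 * mo (n + 1)) ≤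
      ∑' n : ℕ, ENNReal.ofReal (csq s (n + 1) ^ 2 * mo (n + 1)) := by
    have e : ∀ c : ℕ → ℝ, ∑' n : ℕ, ENNReal.ofReal (c (n + 1) ^ 2 * mo (n + 1)) =
        ∫⁻ y in Set.Ioi (1 / 2 : ℝ), W y * ∑' n : ℕ, ENNReal.ofReal (c (n + 1) ^ 2 * y ^ (n + 1)) := by
      intro c
      simp_rw [← ENNReal.tsum_mul_left]
      rw [lintegral_tsum fun n => by fun_prop]
      exact tsum_congr fun n => (mo_lint (n + 1) (c (n + 1))).symm
    rw [e, e, ← lintegral_const_mul' _ _ ENNReal.ofReal_ne_top]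
    refine setLIntegral_mono' measurableSet_Ioi fun y hy => ?_
    have hy' : (1 / 2 : ℝ) < y := hy
    rw [mul_left_comm]
    exact mul_le_mul_right (point s hs y (by linarith)) _
  have shift : ∀ c : ℕ → ℝ, ∑' n : ℕ, ENNReal.ofReal (n * w n * c n ^ 2) =
      ∑' n : ℕ, ENNReal.ofReal (((n + 1 : ℕ) : ℝ) * w (n + 1) * c (n + 1) ^ 2) := by
    intro c
    rw [tsum_eq_zero_add' ENNReal.summable]
    simp
  rw [shift, shift (csq s)]
  have wpos : ∀ n, 0 < w n := fun n => by unfold w; positivity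
  -- upper bound of the left side
  have hL : ∑' n : ℕ, ENNReal.ofReal (((n + 1 : ℕ) : ℝ) * w (n + 1) * s (n + 1) ^ 2) ≤
      ENNReal.ofReal 2 * ∑' n : ℕ, ENNReal.ofReal (s (n + 1) ^ 2 * mo (n + 1)) := by
    rw [← ENNReal.tsum_mul_left]
    refine ENNReal.tsum_le_tsum fun n => ?_
    rw [← ENNReal.ofReal_mul (by norm_num)]
    refine ENNReal.ofReal_le_ofReal ?_
    have h := mo_ge (n + 1)
    nlinarith [sq_nonneg (s (n + 1))]
  have hR : ENNReal.ofReal 2 * ∑' n : ℕ, ENNReal.ofReal (csq s (n + 1) ^ 2 * mo (n + 1)) ≤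
      ENNReal.ofReal (361 / 360) *
        ∑' n : ℕ, ENNReal.ofReal (((n + 1 : ℕ) : ℝ) * w (n + 1) * csq s (n + 1) ^ 2) := by
    rw [← ENNReal.tsum_mul_left, ← ENNReal.tsum_mul_left]
    refine ENNReal.tsum_le_tsum fun n => ?_
    rw [← ENNReal.ofReal_mul (by norm_num), ← ENNReal.ofReal_mul (by norm_num)]
    refine ENNReal.ofReal_le_ofReal ?_
    rcases Nat.lt_or_ge n 2 with hn | hn
    · have hz : csq s (n + 1) = 0 := by
        interval_cases n
        · simp [csq, Finset.Nat.antidiagonal_succ, h1]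
        · simp [csq, Finset.Nat.antidiagonal_succ, h1, h2]
      rw [hz]
      simp
    · have h := mo_le (n := n + 1) (by omega)
      have h3 := mul_le_mul_of_nonneg_left h (sq_nonneg (csq s (n + 1)))
      push_cast at h3 ⊢
      nlinarith
  calc ENNReal.ofReal (2 * (360 / 361) * s 0 ^ 2) *
        ∑' n : ℕ, ENNReal.ofReal (((n + 1 : ℕ) : ℝ) * w (n + 1) * s (n + 1) ^ 2)
      ≤ ENNReal.ofReal (2 * (360 / 361) * s 0 ^ 2) *
        (ENNReal.ofReal 2 * ∑' n : ℕ, ENNReal.ofReal (s (n + 1) ^ 2 * mo (n + 1))) :=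
        mul_le_mul_right hL _
    _ = ENNReal.ofReal (360 / 361) * ENNReal.ofReal 2 * (ENNReal.ofReal (2 * s 0 ^ 2) *
        ∑' n : ℕ, ENNReal.ofReal (s (n + 1) ^ 2 * mo (n + 1))) := by
        rw [show (2 : ℝ) * (360 / 361) * s 0 ^ 2 = 360 / 361 * (2 * s 0 ^ 2) by ring,
          ENNReal.ofReal_mul (by norm_num)]
        ring
    _ ≤ ENNReal.ofReal (360 / 361) * ENNReal.ofReal 2 *
        ∑' n : ℕ, ENNReal.ofReal (csq s (n + 1) ^ 2 * mo (n + 1)) := mul_le_mul_right hI _
    _ = ENNReal.ofReal (360 / 361) * (ENNReal.ofReal 2 *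
        ∑' n : ℕ, ENNReal.ofReal (csq s (n + 1) ^ 2 * mo (n + 1))) := by ring
    _ ≤ ENNReal.ofReal (360 / 361) * (ENNReal.ofReal (361 / 360) *
        ∑' n : ℕ, ENNReal.ofReal (((n + 1 : ℕ) : ℝ) * w (n + 1) * csq s (n + 1) ^ 2)) :=
        mul_le_mul_right hR _
    _ = ∑' n : ℕ, ENNReal.ofReal (((n + 1 : ℕ) : ℝ) * w (n + 1) * csq s (n + 1) ^ 2) := by
        rw [← mul_assoc, ← ENNReal.ofReal_mul (by norm_num)]
        norm_num

end Pool.Agent.Lib.MP_ec2ab1_pr_h53q2
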