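import Mathlib
import Pool.Agent.Lib.MP_ec2ab1_pr_h53q2.Defs

set_option autoImplicit false

/-!
# Fisher information: the lower bound by test polynomials, and translations
-/

namespace Pool.Agent.Lib.MP_ec2ab1_pr_h53q2

open MeasureTheory ProbabilityTheory Polynomial Filter Topology
open scoped ENNReal NNReal
open Pool.Agent.Lib.MP_ec2ab1_pr_h25b (ga et GG bf kf)

open Set in
theorem ac_shift {f : ℝ → ℝ} (h : ∀ a b, AbsolutelyContinuousOnInterval f a b) (c a b : ℝ) :
    AbsolutelyContinuousOnInterval (fun x => f (x - c)) a b := by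
  rw [absolutelyContinuousOnInterval_iff]
  intro ε hε
  obtain ⟨δ, hδ, H⟩ := (absolutelyContinuousOnInterval_iff f (a - c) (b - c)).1 (h _ _) ε hε
  refine ⟨δ, hδ, fun E hE hs => ?_⟩
  refine H (E.1, fun i => ((E.2 i).1 - c, (E.2 i).2 - c)) ?_ ?_
  · refine ⟨fun i hi => ?_, ?_⟩
    · have := hE.1 i hi
      simp only [mem_uIcc] at this ⊢
      constructor
      · rcases this.1 with h | h
        · left; constructor <;> linarith [h.1, h.2]
        · right; constructor <;> linarith [h.1, h.2]
      · rcases this.2 with h | h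
        · left; constructor <;> linarith [h.1, h.2]
        · right; constructor <;> linarith [h.1, h.2]
    · intro i hi j hj hij
      have := hE.2 hi hj hij
      simp only [Function.onFun] at this ⊢
      rw [Set.disjoint_left] at this ⊢
      intro x hx hx'
      refine this (a := x + c) ?_ ?_
      · simp only [mem_uIoc] at hx ⊢
        rcases hx with h | h
        · left; constructor <;> linarith [h.1, h.2]
        · right; constructor <;> linarith [h.1, h.2]
      · simp only [mem_uIoc] at hx' ⊢
        rcases hx' with h | h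
        · left; constructor <;> linarith [h.1, h.2]
        · right; constructor <;> linarith [h.1, h.2]
  · simpa [Real.dist_eq] using hs

theorem ac_cont {f : ℝ → ℝ} (h : ∀ a b, AbsolutelyContinuousOnInterval f a b) : Continuous f := by
  rw [continuous_iff_continuousAt]
  intro x
  have := (h (x - 1) (x + 1)).continuousOn
  rw [Set.uIcc_of_le (by linarith)] at this
  exact this.continuousAt (Icc_mem_nhds (by linarith) (by linarith))

theorem fisher_shift_le (ν : Measure ℝ) (c : ℝ) : fisher (ν.map (fun s => s + c)) ≤ fisher ν := by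
  unfold fisher
  refine le_iInf₂ fun f hf => ?_
  obtain ⟨hac, h0, hν⟩ := hf
  have hcf := ac_cont hac
  have hmap : ν.map (fun s => s + c) = volume.withDensity (fun x => ENNReal.ofReal (f (x - c))) := by
    rw [hν]
    ext A hA
    have hadd : Measurable (fun s : ℝ => s + c) := by fun_prop
    rw [Measure.map_apply hadd hA, withDensity_apply _ (hadd hA), withDensity_apply _ hA,
      ← lintegral_indicator (hadd hA), ← lintegral_indicator hA,
      ← lintegral_add_right_eq_self (A.indicator fun a => ENNReal.ofReal (f (a - c))) c]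
    refine lintegral_congr fun s => ?_
    by_cases hs : s + c ∈ A
    · rw [Set.indicator_of_mem hs, Set.indicator_of_mem (show s ∈ (fun s => s + c) ⁻¹' A from hs),
        add_sub_cancel_right]
    · rw [Set.indicator_of_notMem hs,
        Set.indicator_of_notMem (show s ∉ (fun s => s + c) ⁻¹' A from hs)]
  refine (iInf₂_le (fun x => f (x - c)) ⟨ac_shift hac c, fun x => h0 _, hmap⟩).trans ?_
  beta_reduce
  have hm1 : MeasurableSet {x | 0 < f x} := measurableSet_lt measurable_const hcf.measurable
  have hm2 : MeasurableSet {x | 0 < f (x - c)} :=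
    measurableSet_lt measurable_const (hcf.comp (continuous_id.sub continuous_const)).measurable
  rw [← lintegral_indicator hm1, ← lintegral_indicator hm2, 
    ← lintegral_add_right_eq_self ({x | 0 < f (x - c)}.indicator _) c]
  refine le_of_eq (lintegral_congr fun s => ?_)
  have hd : ∀ x, deriv (fun x => f (x - c)) x = deriv f (x - c) := fun x =>
    deriv_comp_sub_const f c x
  simp only [hd]
  by_cases hs : 0 < f s
  · rw [Set.indicator_of_mem (show s ∈ {x | 0 < f x} from hs),
      Set.indicator_of_mem (show s + c ∈ {x | 0 < f (x - c)} by simpa using hs)]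
    simp
  · rw [Set.indicator_of_notMem (show s ∉ {x | 0 < f x} from hs),
      Set.indicator_of_notMem (show s + c ∉ {x | 0 < f (x - c)} by simpa using hs)]

/-- ROW D3 -/
theorem fisher_shift (ν : Measure ℝ) (c : ℝ) : fisher (ν.map (fun s => s + c)) = fisher ν := by
  refine le_antisymm (fisher_shift_le ν c) ?_
  have := fisher_shift_le (ν.map (fun s => s + c)) (-c)
  rw [Measure.map_map (by fun_prop) (by fun_prop)] at this
  have e : ((fun s => s + -c) ∘ fun s : ℝ => s + c) = id := by
    ext s; simp
  rwa [e, Measure.map_id] at this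

theorem D1_tendsto (p : ℝ[X]) :
    Tendsto (fun x => p.eval x * gaussianPDFReal 0 2 x) (cocompact ℝ) (𝓝 0) := by
  induction p using Polynomial.induction_on' with
  | add p q hp hq =>
    have := hp.add hq
    simp only [add_zero] at this
    refine this.congr fun x => ?_
    rw [eval_add]; ring
  | monomial n a =>
    have h := tendsto_rpow_abs_mul_exp_neg_mul_sq_cocompact (a := 1 / 4) (by norm_num) n
    have h2 := h.const_mul (|a| * (√(2 * Real.pi * 2))⁻¹)
    rw [mul_zero] at h2
    refine squeeze_zero_norm (fun x => le_of_eq ?_) h2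
    rw [eval_monomial, Real.norm_eq_abs, abs_mul, abs_mul, abs_pow, Real.rpow_natCast]
    rw [abs_of_pos (gaussianPDFReal_pos _ _ _ (by norm_num)), gaussianPDFReal]
    simp only [sub_zero, NNReal.coe_ofNat]
    have : -x ^ 2 / (2 * 2) = -(1 / 4) * x ^ 2 := by ring
    rw [this]; ring

theorem D1_int_poly (p : ℝ[X]) : Integrable (fun s => p.eval s) GG := by
  induction p using Polynomial.induction_on' with
  | add p q hp hq =>
    simp only [eval_add]
    exact hp.add hq
  | monomial n a =>
    simp only [eval_monomial]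
    refine Integrable.const_mul ?_ a
    have := (memLp_id_gaussianReal (μ := 0) (v := 2) n).integrable_norm_pow' 
    refine this.mono (by fun_prop) (Eventually.of_forall fun x => ?_)
    simp

theorem D1_ofReal_integral_le {α : Type*} [MeasurableSpace α] {μ : Measure α} {φ : α → ℝ}
    (hφ : Integrable φ μ) : ENNReal.ofReal (∫ x, φ x ∂μ) ≤ ∫⁻ x, ENNReal.ofReal (φ x) ∂μ := by
  rw [integral_eq_lintegral_pos_part_sub_lintegral_neg_part hφ]
  refine (ENNReal.ofReal_le_ofReal (sub_le_self _ ENNReal.toReal_nonneg)).trans ?_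
  exact ENNReal.ofReal_toReal_le

theorem D1_pointwise {f : ℝ → ℝ} (h0 : ∀ x, 0 ≤ f x) (t : ℝ) (x : ℝ) :
    ENNReal.ofReal (2 * t * deriv f x - t ^ 2 * f x) ≤
      ({x | 0 < f x} : Set ℝ).indicator (fun x => ENNReal.ofReal (deriv f x ^ 2 / f x)) x := by
  rcases (h0 x).eq_or_lt with h | h
  · have hd : deriv f x = 0 := by
      have : IsLocalMin f x := Eventually.of_forall fun y => by rw [← h]; exact h0 y
      exact this.deriv_eq_zero
    rw [hd, ← h]
    simp
  · rw [Set.indicator_of_mem (show x ∈ {x | 0 < f x} from h)]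
    refine ENNReal.ofReal_le_ofReal ?_
    rw [le_div_iff₀ h]
    nlinarith [sq_nonneg (deriv f x - t * f x)]

theorem D1_interval {f : ℝ → ℝ} (hac : ∀ a b, AbsolutelyContinuousOnInterval f a b)
    (h0 : ∀ x, 0 ≤ f x) (η : ℝ[X]) {R : ℝ} (hR : 0 ≤ R) :
    ENNReal.ofReal (2 * (η.eval R * f R - η.eval (-R) * f (-R)) -
      ∫ x in (-R)..R, (2 * (derivative η).eval x + η.eval x ^ 2) * f x) ≤
      ∫⁻ x in {x | 0 < f x}, ENNReal.ofReal (deriv f x ^ 2 / f x) := by
  have hcf := ac_cont hac
  have hη : AbsolutelyContinuousOnInterval (fun x => η.eval x) (-R) R :=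
    (show ContDiff ℝ 1 (fun x : ℝ => η.eval x) by
      simpa [aeval_def] using η.contDiff_aeval (𝕜 := ℝ) 1).contDiffOn.absolutelyContinuousOnInterval
  have hi1 : IntervalIntegrable (fun x => η.eval x * deriv f x) volume (-R) R :=
    (hac _ _).intervalIntegrable_deriv.continuousOn_mul η.continuous.continuousOn
  have key := hη.integral_mul_deriv_eq_deriv_mul (hac (-R) R)
  simp only [Polynomial.deriv] at key
  have hi2 : IntervalIntegrable (fun x => η.eval x ^ 2 * f x) volume (-R) R :=
    Continuous.intervalIntegrable (by fun_prop) _ _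
  have hi3 : IntervalIntegrable (fun x => (derivative η).eval x * f x) volume (-R) R :=
    Continuous.intervalIntegrable (by fun_prop) _ _
  have e1 : ∫ x in (-R)..R, (2 * (derivative η).eval x + η.eval x ^ 2) * f x =
      2 * (∫ x in (-R)..R, (derivative η).eval x * f x) + ∫ x in (-R)..R, η.eval x ^ 2 * f x := by
    rw [← intervalIntegral.integral_const_mul, ← intervalIntegral.integral_add (hi3.const_mul 2) hi2]
    refine intervalIntegral.integral_congr fun x _ => ?_
    ring
  have e2 : ∫ x in (-R)..R, (2 * η.eval x * deriv f x - η.eval x ^ 2 * f x) =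
      2 * (∫ x in (-R)..R, η.eval x * deriv f x) - ∫ x in (-R)..R, η.eval x ^ 2 * f x := by
    rw [← intervalIntegral.integral_const_mul, ← intervalIntegral.integral_sub (hi1.const_mul 2) hi2]
    refine intervalIntegral.integral_congr fun x _ => ?_
    ring
  have e3 : 2 * (η.eval R * f R - η.eval (-R) * f (-R)) -
      ∫ x in (-R)..R, (2 * (derivative η).eval x + η.eval x ^ 2) * f x =
      ∫ x in (-R)..R, (2 * η.eval x * deriv f x - η.eval x ^ 2 * f x) := by
    rw [e1, e2, key]; ring
  rw [e3, intervalIntegral.integral_of_le (by linarith)]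
  have hI : IntegrableOn (fun x => 2 * η.eval x * deriv f x - η.eval x ^ 2 * f x)
      (Set.Ioc (-R) R) volume := by
    have := (hi1.const_mul 2).sub hi2
    rw [intervalIntegrable_iff_integrableOn_Ioc_of_le (by linarith)] at this
    refine this.congr (Eventually.of_forall fun x => ?_)
    ring
  refine (D1_ofReal_integral_le hI).trans ?_
  have hm1 : MeasurableSet {x | 0 < f x} := measurableSet_lt measurable_const hcf.measurable
  rw [← lintegral_indicator hm1]
  refine (lintegral_mono fun x => ?_).trans (setLIntegral_le_lintegral _ _)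
  exact D1_pointwise h0 _ x

/-- ROW D1 -/
theorem fisher_lower {u : ℝ → ℝ} (hu : Measurable u) {K : ℝ} (h0 : ∀ s, 0 ≤ u s)
    (hK : ∀ s, u s ≤ K) (h2 : ∫ s, s ^ 2 * u s ∂GG = 2) (h1 : ∫ s, u s ∂GG = 1) (θ : ℝ[X]) :
    ENNReal.ofReal (1 / 2 + ∫ s, (s * θ.eval s - 2 * (derivative θ).eval s - θ.eval s ^ 2) * u s
      ∂GG) ≤ fisher (GG.withDensity (fun s => ENNReal.ofReal (u s))) := by
  have hpu : ∀ p : ℝ[X], Integrable (fun s => p.eval s * u s) GG := fun p => by
    refine ((D1_int_poly p).norm.mul_const K).mono (by fun_prop) (Eventually.of_forall fun x => ?_)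
    have hK0 : 0 ≤ K := (h0 0).trans (hK 0)
    rw [norm_mul, norm_mul, norm_norm, Real.norm_of_nonneg (h0 x), Real.norm_of_nonneg hK0]
    exact mul_le_mul_of_nonneg_left (hK x) (norm_nonneg _)
  unfold fisher
  refine le_iInf₂ fun f hf => ?_
  obtain ⟨hac, hf0, hν⟩ := hf
  have hcf := ac_cont hac
  have hg0 : ∀ x, 0 < gaussianPDFReal 0 2 x := fun x => gaussianPDFReal_pos _ _ _ (by norm_num)
  have hgc : Continuous (gaussianPDFReal 0 2) := by
    unfold gaussianPDFReal; fun_prop
  -- `f = g u` almost everywhere
  have hae : ∀ᵐ x, f x = gaussianPDFReal 0 2 x * u x := by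
    have hv : volume.withDensity (fun x => ENNReal.ofReal (gaussianPDFReal 0 2 x * u x)) =
        volume.withDensity (fun x => ENNReal.ofReal (f x)) := by
      rw [← hν]
      change _ = (gaussianReal 0 2).withDensity _
      rw [gaussianReal_of_var_ne_zero 0 (by norm_num : (2 : ℝ≥0) ≠ 0),
        ← withDensity_mul _ (measurable_gaussianPDF _ _) (by fun_prop)]
      congr 1
      ext x
      rw [Pi.mul_apply, ENNReal.ofReal_mul (hg0 x).le]
      rfl
    rw [withDensity_eq_iff_of_sigmaFinite (by fun_prop) (by fun_prop)] at hv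
    filter_upwards [hv] with x hx
    have := congrArg ENNReal.toReal hx
    rw [ENNReal.toReal_ofReal (mul_nonneg (hg0 x).le (h0 x)), ENNReal.toReal_ofReal (hf0 x)] at this
    exact this.symm
  -- `f ≤ K g` everywhere
  have hle : ∀ x, f x ≤ K * gaussianPDFReal 0 2 x := by
    by_contra hcon
    push Not at hcon
    obtain ⟨x, hx⟩ := hcon
    have hopen : IsOpen {x | K * gaussianPDFReal 0 2 x < f x} :=
      isOpen_lt (by fun_prop) hcf
    have hz : (volume : Measure ℝ) {x | K * gaussianPDFReal 0 2 x < f x} = 0 := by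
      rw [← nonpos_iff_eq_zero]
      refine (measure_mono fun y hy => ?_).trans (le_of_eq (ae_iff.1 hae))
      intro hy'
      have hy2 : K * gaussianPDFReal 0 2 y < f y := hy
      rw [hy'] at hy2
      nlinarith [hK y, hg0 y]
    rw [hopen.measure_eq_zero_iff (volume : Measure ℝ)] at hz
    exact (Set.mem_empty_iff_false x).1 (hz ▸ hx)
  set J := ∫⁻ x in {x | 0 < f x}, ENNReal.ofReal (deriv f x ^ 2 / f x) with hJ
  set η : ℝ[X] := θ - C (1 / 2) * X with hη
  -- transfer of integrals
  have htr : ∀ p : ℝ[X], Integrable (fun x => p.eval x * f x) ∧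
      ∫ x, p.eval x * f x = ∫ s, p.eval s * u s ∂GG := by
    intro p
    have h := hpu p
    change Integrable _ (gaussianReal 0 2) at h
    rw [gaussianReal_of_var_ne_zero 0 (by norm_num : (2 : ℝ≥0) ≠ 0),
      integrable_withDensity_iff_integrable_smul' (measurable_gaussianPDF _ _)
      (Filter.Eventually.of_forall fun _ => gaussianPDF_lt_top)] at h
    have hcong : (fun x => (gaussianPDF 0 2 x).toReal • (p.eval x * u x)) =ᵐ[volume]
        fun x => p.eval x * f x := by
      filter_upwards [hae] with x hx
      rw [hx, toReal_gaussianPDF, smul_eq_mul]; ring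
    refine ⟨h.congr hcong, ?_⟩
    rw [← integral_congr_ae hcong]
    have h' := integral_gaussianReal_eq_integral_smul (μ := 0) (v := 2)
      (f := fun s => p.eval s * u s) (by norm_num)
    rw [h']
    simp only [toReal_gaussianPDF]
  have hq : ∀ x, (2 * (derivative η).eval x + η.eval x ^ 2) * f x =
      (2 * derivative η + η ^ 2 : ℝ[X]).eval x * f x := fun x => by
    rw [eval_add, eval_mul, eval_pow]; simp
  -- the limit of boundary terms
  have hbd : Tendsto (fun x => η.eval x * f x) (cocompact ℝ) (𝓝 0) := by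
    have h3 := ((D1_tendsto η).norm).const_mul K
    rw [norm_zero, mul_zero] at h3
    refine squeeze_zero_norm (fun x => ?_) h3
    rw [norm_mul, norm_mul, Real.norm_of_nonneg (hf0 x), Real.norm_of_nonneg (hg0 x).le]
    have := mul_le_mul_of_nonneg_left (hle x) (norm_nonneg (η.eval x))
    linarith
  have hlim : Tendsto (fun R : ℝ => ENNReal.ofReal (2 * (η.eval R * f R - η.eval (-R) * f (-R)) -
      ∫ x in (-R)..R, (2 * (derivative η).eval x + η.eval x ^ 2) * f x)) atTop
      (𝓝 (ENNReal.ofReal (2 * (0 - 0) - ∫ x, (2 * (derivative η).eval x + η.eval x ^ 2) * f x))) := by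
    refine (ENNReal.continuous_ofReal.tendsto _).comp ?_
    refine Tendsto.sub (Tendsto.const_mul 2 (Tendsto.sub ?_ ?_)) ?_
    · exact hbd.comp (tendsto_id.mono_right atTop_le_cocompact)
    · exact hbd.comp ((tendsto_neg_atTop_atBot).mono_right atBot_le_cocompact)
    · refine intervalIntegral_tendsto_integral ?_ tendsto_neg_atTop_atBot tendsto_id
      simp_rw [hq]
      exact (htr _).1
  have hfin := le_of_tendsto hlim ((eventually_ge_atTop 0).mono fun R hR =>
    D1_interval hac hf0 η hR)
  refine le_trans (le_of_eq ?_) hfin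
  congr 1
  simp_rw [hq]
  rw [(htr _).2]
  have hθ : ∀ s, (s * θ.eval s - 2 * (derivative θ).eval s - θ.eval s ^ 2) * u s =
      -((2 * derivative η + η ^ 2 : ℝ[X]).eval s * u s) + (-1 * u s + 1 / 4 * (s ^ 2 * u s)) := by
    intro s
    rw [hη]
    simp
    ring
  simp_rw [hθ]
  have i1 : Integrable u GG := by simpa using hpu 1
  have i2 : Integrable (fun s => s ^ 2 * u s) GG := by
    have := hpu (X ^ 2)
    simp only [eval_pow, eval_X] at this
    exact this
  have j1 : Integrable (fun s => -((2 * derivative η + η ^ 2 : ℝ[X]).eval s * u s)) GG :=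
    (hpu _).neg
  have j2 : Integrable (fun s => -1 * u s) GG := i1.const_mul _
  have j3 : Integrable (fun s => 1 / 4 * (s ^ 2 * u s)) GG := i2.const_mul _
  have j4 : Integrable (fun s => -1 * u s + 1 / 4 * (s ^ 2 * u s)) GG := j2.add j3
  rw [integral_add j1 j4, integral_neg, integral_add j2 j3, integral_const_mul,
    integral_const_mul, h1, h2]
  ring

end Pool.Agent.Lib.MP_ec2ab1_pr_h53q2
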