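import Mathlib
import Pool.Agent.Lib.MP_ec2ab1_pr_h53q2.RowD13

set_option autoImplicit false

/-!
# Hermite polynomials
-/

namespace Pool.Agent.Lib.MP_ec2ab1_pr_h53q2

open MeasureTheory ProbabilityTheory Polynomial Filter Topology
open scoped ENNReal NNReal
open Pool.Agent.Lib.MP_ec2ab1_pr_h25b (ga et GG bf kf)

/-- ROW B1 -/
theorem HP_deriv (n : ℕ) : derivative (HP n) = C ((n : ℝ) / 2) * HP (n - 1) := by
  induction n with
  | zero => simp [HP]
  | succ n ih =>
    have h : HP (n + 1) = C (1 / 2) * X * HP n - derivative (HP n) := rfl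
    rw [h, derivative_sub, mul_assoc, derivative_C_mul, derivative_mul, derivative_X, one_mul, ih,
      derivative_C_mul, Nat.add_sub_cancel]
    rcases n with _ | n
    · simp [HP]
    · simp only [Nat.add_sub_cancel]
      have h2 : HP (n + 1) = C (1 / 2) * X * HP n - derivative (HP n) := rfl
      have h3 : derivative (HP n) = C (1 / 2) * X * HP n - HP (n + 1) := by rw [h2]; ring
      rw [h3]
      have e1 : (C (((n + 1 + 1 : ℕ) : ℝ) / 2) : ℝ[X]) = C (1 / 2) + C (((n + 1 : ℕ) : ℝ) / 2) := by
        rw [← C_add]; congr 1; push_cast; ring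
      rw [e1]
      ring

/-- real Hermite polynomials -/
noncomputable def Hm (n : ℕ) : ℝ[X] := (hermite n).map (Int.castRingHom ℝ)

theorem Hm_succ (n : ℕ) : Hm (n + 1) = X * Hm n - derivative (Hm n) := by
  unfold Hm
  rw [hermite_succ, Polynomial.map_sub, Polynomial.map_mul, map_X, derivative_map]

theorem Hm_deriv (n : ℕ) : derivative (Hm (n + 1)) = C ((n : ℝ) + 1) * Hm n := by
  induction n with
  | zero => simp [Hm]
  | succ n ih =>
    rw [Hm_succ (n + 1), derivative_sub, derivative_mul, derivative_X, one_mul, ih,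
      derivative_C_mul]
    have h3 : derivative (Hm n) = X * Hm n - Hm (n + 1) := by rw [Hm_succ]; ring
    rw [h3]
    push_cast
    have e1 : (C ((n : ℝ) + 1 + 1) : ℝ[X]) = 1 + C ((n : ℝ) + 1) := by
      rw [C_add (a := (n : ℝ) + 1) (b := 1), C_1]; ring
    rw [e1]
    ring

theorem hq_eq (n : ℕ) : hq n = C ((n.factorial : ℝ)⁻¹) * Hm n := rfl

theorem hq_deriv (n : ℕ) : derivative (hq (n + 1)) = hq n := by
  rw [hq_eq, hq_eq, derivative_C_mul, Hm_deriv, ← mul_assoc, ← C_mul]
  congr 2
  rw [Nat.factorial_succ]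
  push_cast
  have : (n.factorial : ℝ) ≠ 0 := by positivity
  field_simp

theorem hq_rec (n : ℕ) : C ((n : ℝ) + 1) * hq (n + 1) = X * hq n - derivative (hq n) := by
  rw [hq_eq, hq_eq, derivative_C_mul, ← mul_assoc, ← C_mul, Hm_succ]
  have : ((n : ℝ) + 1) * ((n + 1).factorial : ℝ)⁻¹ = (n.factorial : ℝ)⁻¹ := by
    rw [Nat.factorial_succ]
    push_cast
    have : (n.factorial : ℝ) ≠ 0 := by positivity
    field_simp
  rw [this]
  ring

theorem gpdf_deriv (v : ℝ≥0) (hv : v ≠ 0) (x : ℝ) :
    HasDerivAt (gaussianPDFReal 0 v) (-(x / v) * gaussianPDFReal 0 v x) x := by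
  have hv' : (v : ℝ) ≠ 0 := by exact_mod_cast hv
  have h2 : gaussianPDFReal 0 v = fun x : ℝ =>
      (Real.sqrt (2 * Real.pi * v))⁻¹ * Real.exp (-x ^ 2 / (2 * v)) := by
    funext x
    rw [gaussianPDFReal_def]
    simp only [sub_zero]
  have h1 : HasDerivAt (fun x : ℝ => (Real.sqrt (2 * Real.pi * v))⁻¹ * Real.exp (-x ^ 2 / (2 * v)))
      ((Real.sqrt (2 * Real.pi * v))⁻¹ * (Real.exp (-x ^ 2 / (2 * v)) * (-(2 * x) / (2 * v)))) x := by
    have := (((hasDerivAt_pow 2 x).neg.div_const (2 * (v : ℝ))).exp).const_mul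
      (Real.sqrt (2 * Real.pi * v))⁻¹
    convert! this using 2
    simp
  rw [h2]
  convert! h1 using 1
  field_simp

theorem gauss_poly_int (v : ℝ≥0) (p : ℝ[X]) : Integrable (fun s => p.eval s) (gaussianReal 0 v) := by
  induction p using Polynomial.induction_on' with
  | add p q hp hq =>
    simp only [eval_add]
    exact hp.add hq
  | monomial n a =>
    simp only [eval_monomial]
    refine Integrable.const_mul ?_ a
    have := (memLp_id_gaussianReal (μ := 0) (v := v) n).integrable_norm_pow'
    refine this.mono (by fun_prop) (Eventually.of_forall fun x => ?_)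
    simp

theorem gauss_parts (v : ℝ≥0) (hv : v ≠ 0) (q : ℝ[X]) :
    ∫ x, (derivative q).eval x ∂(gaussianReal 0 v) = ∫ x, x / v * q.eval x ∂(gaussianReal 0 v) := by
  have hv' : (v : ℝ) ≠ 0 := by exact_mod_cast hv
  have tr : ∀ p : ℝ[X], Integrable (fun x => gaussianPDFReal 0 v x * p.eval x) := by
    intro p
    have h := gauss_poly_int v p
    rw [gaussianReal_of_var_ne_zero 0 hv,
      integrable_withDensity_iff_integrable_smul' (measurable_gaussianPDF _ _)
      (Filter.Eventually.of_forall fun _ => gaussianPDF_lt_top)] at h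
    refine h.congr (Eventually.of_forall fun x => ?_)
    simp only [toReal_gaussianPDF, smul_eq_mul]
  have key := integral_mul_deriv_eq_deriv_mul_of_integrable
    (u := gaussianPDFReal 0 v) (u' := fun x => -(x / v) * gaussianPDFReal 0 v x)
    (v := fun x => q.eval x) (v' := fun x => (derivative q).eval x)
    (fun x _ => gpdf_deriv v hv x) (fun x _ => q.hasDerivAt x)
    ((tr (derivative q)).congr (Eventually.of_forall fun x => by simp only [Pi.mul_apply]))
    ((tr (C (-(1 / (v : ℝ))) * X * q)).congr (Eventually.of_forall fun x => by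
      simp only [Pi.mul_apply, eval_mul, eval_C, eval_X]; ring))
    ((tr q).congr (Eventually.of_forall fun x => by simp only [Pi.mul_apply]))
  rw [integral_gaussianReal_eq_integral_smul hv, integral_gaussianReal_eq_integral_smul hv]
  simp only [smul_eq_mul]
  rw [key, ← integral_neg]
  exact integral_congr_ae (Eventually.of_forall fun x => by ring)

theorem w_succ0 (n : ℕ) : w (n + 1) = ((n + 1 : ℝ) / 2) * w n := by
  unfold w
  rw [Nat.factorial_succ, pow_succ]
  push_cast
  field_simp

/-- ROW B4: orthogonality -/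
theorem HP_orth (n m : ℕ) :
    ∫ s, (HP n).eval s * (HP m).eval s ∂GG = if n = m then w n else 0 := by
  induction n generalizing m with
  | zero =>
    rcases m with _ | m
    · simp [HP, w]
    · have h := gauss_parts 2 (by norm_num) (HP m)
      have h2 : ∫ s, (HP 0).eval s * (HP (m + 1)).eval s ∂GG =
          ∫ x, x / ((2 : ℝ≥0) : ℝ) * (HP m).eval x ∂GG - ∫ x, (derivative (HP m)).eval x ∂GG := by
        have i1 : Integrable (fun x => x / ((2 : ℝ≥0) : ℝ) * (HP m).eval x) GG := by
          refine (gauss_poly_int 2 (C (1 / 2) * X * HP m)).congr (Eventually.of_forall fun x => ?_)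
          simp only [eval_mul, eval_C, eval_X]
          push_cast; ring
        rw [← integral_sub i1 (gauss_poly_int 2 _)]
        refine integral_congr_ae (Eventually.of_forall fun x => ?_)
        simp only [HP, eval_one, one_mul, eval_sub, eval_mul, eval_C, eval_X]
        push_cast; ring
      rw [h2, ← h, sub_self, if_neg (by omega)]
  | succ n ih =>
    have h := gauss_parts 2 (by norm_num) (HP n * HP m)
    have i1 : Integrable (fun x => x / ((2 : ℝ≥0) : ℝ) * (HP n * HP m).eval x) GG := by
      refine (gauss_poly_int 2 (C (1 / 2) * X * (HP n * HP m))).congr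
        (Eventually.of_forall fun x => ?_)
      simp only [eval_mul, eval_C, eval_X]
      push_cast; ring
    have e : ∀ x, (HP (n + 1)).eval x * (HP m).eval x = (x / ((2 : ℝ≥0) : ℝ) *
        (HP n * HP m).eval x - (derivative (HP n * HP m)).eval x) +
        (m : ℝ) / 2 * ((HP n).eval x * (HP (m - 1)).eval x) := by
      intro x
      have h2 : HP (n + 1) = C (1 / 2) * X * HP n - derivative (HP n) := rfl
      rw [h2, derivative_mul, HP_deriv m]
      simp only [eval_sub, eval_add, eval_mul, eval_C, eval_X]
      push_cast; ring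
    simp_rw [e]
    have i2 : Integrable (fun x => (HP n).eval x * (HP (m - 1)).eval x) GG := by
      simpa only [eval_mul] using gauss_poly_int 2 (HP n * HP (m - 1))
    have i3 : Integrable (fun x => x / ((2 : ℝ≥0) : ℝ) *
        (HP n * HP m).eval x - (derivative (HP n * HP m)).eval x) GG :=
      i1.sub (gauss_poly_int 2 _)
    rw [integral_add i3 (i2.const_mul _), integral_sub i1 (gauss_poly_int 2 _),
      ← h, sub_self, zero_add, integral_const_mul, ih]
    rcases m with _ | m
    · simp
    · simp only [Nat.add_sub_cancel]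
      by_cases hnm : n = m
      · subst hnm
        rw [if_pos rfl, if_pos rfl, w_succ0]
        push_cast; ring
      · rw [if_neg hnm, if_neg (by omega), mul_zero]

/-- ROW B5: orthogonality for `N(0,1)` (only the square is needed) -/
theorem hq_sq (n : ℕ) : ∫ x, (hq n).eval x ^ 2 ∂ga = (n.factorial : ℝ)⁻¹ := by
  induction n with
  | zero => simp [hq]
  | succ n ih =>
    have h := gauss_parts 1 (by norm_num) (hq n * hq (n + 1))
    have i1 : Integrable (fun x => x / ((1 : ℝ≥0) : ℝ) * (hq n * hq (n + 1)).eval x) ga := by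
      refine (gauss_poly_int 1 (X * (hq n * hq (n + 1)))).congr
        (Eventually.of_forall fun x => ?_)
      simp only [eval_mul, eval_X]
      push_cast; ring
    have e : ∀ x, (hq (n + 1)).eval x ^ 2 = ((n : ℝ) + 1)⁻¹ * ((x / ((1 : ℝ≥0) : ℝ) *
        (hq n * hq (n + 1)).eval x - (derivative (hq n * hq (n + 1))).eval x) +
        (hq n).eval x ^ 2) := by
      intro x
      have h2 := congrArg (fun p => p.eval x) (hq_rec n)
      simp only [eval_mul, eval_sub, eval_C, eval_X] at h2
      rw [derivative_mul, hq_deriv n]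
      simp only [eval_add, eval_mul]
      have h3 : (0 : ℝ) < (n : ℝ) + 1 := by positivity
      rw [eq_inv_mul_iff_mul_eq₀ h3.ne']
      push_cast
      linear_combination (hq (n + 1)).eval x * h2
    simp_rw [e]
    have i2 : Integrable (fun x => (hq n).eval x ^ 2) ga := by
      refine (gauss_poly_int 1 (hq n ^ 2)).congr (Eventually.of_forall fun x => ?_)
      simp only [eval_pow]
    have i3 : Integrable (fun x => x / ((1 : ℝ≥0) : ℝ) *
        (hq n * hq (n + 1)).eval x - (derivative (hq n * hq (n + 1))).eval x) ga :=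
      i1.sub (gauss_poly_int 1 _)
    rw [integral_const_mul, integral_add i3 i2, integral_sub i1 (gauss_poly_int 1 _), ← h,
      sub_self, zero_add, ih, Nat.factorial_succ]
    push_cast
    rw [mul_inv]

/-- generating function -/
noncomputable def gen (x : ℝ) : PowerSeries ℝ := PowerSeries.mk fun n => (hq n).eval x

theorem gen_deriv (x : ℝ) : PowerSeries.derivative ℝ (gen x) =
    (PowerSeries.C x - PowerSeries.X) * gen x := by
  ext n
  rw [PowerSeries.coeff_derivative, sub_mul, map_sub, PowerSeries.coeff_C_mul]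
  have h2 := congrArg (fun p => p.eval x) (hq_rec n)
  simp only [eval_mul, eval_sub, eval_C, eval_X] at h2
  rcases n with _ | n
  · rw [PowerSeries.coeff_zero_X_mul]
    simp only [gen, PowerSeries.coeff_mk]
    simp only [hq_eq, Hm, hermite_zero] at h2 ⊢
    simp at h2 ⊢
  · rw [PowerSeries.coeff_succ_X_mul]
    simp only [gen, PowerSeries.coeff_mk]
    rw [hq_deriv] at h2
    linarith

theorem prod_rec (x y : ℝ) (n : ℕ) : ((n : ℝ) + 1) * PowerSeries.coeff (n + 1) (gen x * gen y) =
    (x + y) * PowerSeries.coeff n (gen x * gen y) -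
      2 * PowerSeries.coeff n (PowerSeries.X * (gen x * gen y)) := by
  have h : PowerSeries.derivative ℝ (gen x * gen y) =
      (PowerSeries.C (x + y)) * (gen x * gen y) - PowerSeries.C 2 * (PowerSeries.X * (gen x * gen y)) := by
    rw [Derivation.leibniz, gen_deriv, gen_deriv, smul_eq_mul, smul_eq_mul, map_add]
    have : (PowerSeries.C (2 : ℝ)) = 2 := by
      rw [show (2 : ℝ) = 1 + 1 by norm_num, map_add, map_one]; norm_num
    rw [this]
    ring
  have h1 := congrArg (PowerSeries.coeff n) h
  rw [PowerSeries.coeff_derivative, map_sub, PowerSeries.coeff_C_mul, PowerSeries.coeff_C_mul] at h1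
  linarith

/-- ROW B6: addition formula -/
theorem HP_add (n : ℕ) (x y : ℝ) : (HP n).eval (x + y) =
    w n * ∑ ij ∈ Finset.HasAntidiagonal.antidiagonal n, (hq ij.1).eval x * (hq ij.2).eval y := by
  have hA : ∀ n, ∑ ij ∈ Finset.HasAntidiagonal.antidiagonal n,
      (hq ij.1).eval x * (hq ij.2).eval y = PowerSeries.coeff n (gen x * gen y) := by
    intro n
    rw [PowerSeries.coeff_mul]
    refine Finset.sum_congr rfl fun ij _ => ?_
    simp only [gen, PowerSeries.coeff_mk]
  rw [hA]
  have h0 : (HP 0).eval (x + y) = w 0 * PowerSeries.coeff 0 (gen x * gen y) := by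
    rw [← hA]; simp [HP, w, hq]
  have key : ∀ n, (HP n).eval (x + y) = w n * PowerSeries.coeff n (gen x * gen y) ∧
      (HP (n + 1)).eval (x + y) = w (n + 1) * PowerSeries.coeff (n + 1) (gen x * gen y) := by
    intro n
    induction n with
    | zero =>
      refine ⟨h0, ?_⟩
      have h1 := prod_rec x y 0
      rw [PowerSeries.coeff_zero_X_mul] at h1
      have h2 : HP (0 + 1) = C (1 / 2) * X * HP 0 - derivative (HP 0) := rfl
      rw [h2, w_succ0, HP_deriv]
      simp only [eval_sub, eval_mul, eval_C, eval_X]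
      rw [h0]
      push_cast at h1 ⊢
      linear_combination (-(w 0 / 2)) * h1
    | succ n ih =>
      refine ⟨ih.2, ?_⟩
      have h1 := prod_rec x y (n + 1)
      rw [PowerSeries.coeff_succ_X_mul] at h1
      have h2 : HP (n + 1 + 1) = C (1 / 2) * X * HP (n + 1) - derivative (HP (n + 1)) := rfl
      rw [h2, w_succ0 (n + 1), HP_deriv]
      simp only [eval_sub, eval_mul, eval_C, eval_X, Nat.add_sub_cancel]
      rw [ih.2, ih.1]
      push_cast at h1 ⊢
      have h3 := w_succ0 n
      linear_combination (-(w (n + 1) / 2)) * h1 +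
        (PowerSeries.coeff n (gen x * gen y)) * h3
  exact (key n).1

end Pool.Agent.Lib.MP_ec2ab1_pr_h53q2
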