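import Mathlib
import Pool.Agent.Lib.MP_ec2ab1_pr_h53q2.RowD13

set_option autoImplicit false

/-!
# Integrability and integration by parts for `N(0,2)`
-/

namespace Pool.Agent.Lib.MP_ec2ab1_pr_h53q2

open MeasureTheory ProbabilityTheory Polynomial Filter Topology
open scoped ENNReal NNReal
open Pool.Agent.Lib.MP_ec2ab1_pr_h25b (ga et GG bf kf)

/-- ROW B2 -/
theorem integrable_poly (g : ℝ[X]) {F : ℝ → ℝ} (hF : Measurable F) {K : ℝ} (hK : ∀ s, |F s| ≤ K) :
    Integrable (fun s => g.eval s * F s) GG := by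
  refine ((D1_int_poly g).norm.mul_const K).mono (by fun_prop) (Eventually.of_forall fun x => ?_)
  have hK0 : 0 ≤ K := (abs_nonneg _).trans (hK 0)
  rw [norm_mul, norm_mul, norm_norm, Real.norm_of_nonneg hK0]
  exact mul_le_mul_of_nonneg_left (hK x) (norm_nonneg _)

theorem GG_integral (F : ℝ → ℝ) : ∫ s, F s ∂GG = ∫ s, gaussianPDFReal 0 2 s * F s := by
  change ∫ x, F x ∂(gaussianReal 0 2) = _
  rw [integral_gaussianReal_eq_integral_smul (by norm_num)]
  rfl

theorem GG_integrable {F : ℝ → ℝ} (h : Integrable F GG) :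
    Integrable (fun s => gaussianPDFReal 0 2 s * F s) := by
  change Integrable _ (gaussianReal 0 2) at h
  rw [gaussianReal_of_var_ne_zero 0 (by norm_num : (2 : ℝ≥0) ≠ 0),
      integrable_withDensity_iff_integrable_smul' (measurable_gaussianPDF _ _)
      (Filter.Eventually.of_forall fun _ => gaussianPDF_lt_top)] at h
  refine h.congr (Eventually.of_forall fun x => ?_)
  simp only [toReal_gaussianPDF, smul_eq_mul]

theorem pdf2_hasDeriv (x : ℝ) :
    HasDerivAt (gaussianPDFReal 0 2) (-(x / 2) * gaussianPDFReal 0 2 x) x := by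
  have h2 : gaussianPDFReal 0 2 = fun x : ℝ => (Real.sqrt (4 * Real.pi))⁻¹ * Real.exp (-x ^ 2 / 4) := by
    funext x
    rw [gaussianPDFReal_def]
    simp only [sub_zero]
    have h1 : (2 * Real.pi * ((2 : ℝ≥0) : ℝ)) = 4 * Real.pi := by
      push_cast; ring
    have h2 : -x ^ 2 / (2 * ((2 : ℝ≥0) : ℝ)) = -x ^ 2 / 4 := by
      push_cast; ring
    rw [h1, h2]
  have h1 : HasDerivAt (fun x : ℝ => (Real.sqrt (4 * Real.pi))⁻¹ * Real.exp (-x ^ 2 / 4))
      ((Real.sqrt (4 * Real.pi))⁻¹ * (Real.exp (-x ^ 2 / 4) * (-(2 * x) / 4))) x := by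
    have := (((hasDerivAt_pow 2 x).neg.div_const 4).exp).const_mul (Real.sqrt (4 * Real.pi))⁻¹
    convert! this using 2
    simp
  rw [h2]
  convert! h1 using 1
  ring

/-- ROW B3: integration by parts -/
theorem int_parts {F F' : ℝ → ℝ} (hF : ∀ s, HasDerivAt F (F' s) s) (hc : Continuous F')
    {K : ℝ} (hK : ∀ s, |F s| ≤ K) (hK' : ∀ s, |F' s| ≤ K) (g : ℝ[X]) :
    ∫ s, g.eval s * F' s ∂GG = ∫ s, (s / 2 * g.eval s - (derivative g).eval s) * F s ∂GG := by
  have hFc : Continuous F := continuous_iff_continuousAt.2 fun s => (hF s).continuousAt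
  have i1 := GG_integrable (integrable_poly g hc.measurable hK')
  have i2 := GG_integrable (integrable_poly (derivative g - C (1 / 2) * X * g) hFc.measurable hK)
  have i3 := GG_integrable (integrable_poly g hFc.measurable hK)
  have key := integral_mul_deriv_eq_deriv_mul_of_integrable
    (u := fun s => g.eval s * gaussianPDFReal 0 2 s)
    (u' := fun s => (derivative g).eval s * gaussianPDFReal 0 2 s +
      g.eval s * (-(s / 2) * gaussianPDFReal 0 2 s))
    (v := F) (v' := F')
    (fun x _ => (g.hasDerivAt x).mul (pdf2_hasDeriv x)) (fun x _ => hF x)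
    (i1.congr (Eventually.of_forall fun x => by simp only [Pi.mul_apply]; ring))
    (i2.congr (Eventually.of_forall fun x => by
      simp only [Pi.mul_apply, eval_sub, eval_mul, eval_C, eval_X]; ring))
    (i3.congr (Eventually.of_forall fun x => by simp only [Pi.mul_apply]; ring))
  rw [GG_integral, GG_integral]
  have e1 : ∫ s, gaussianPDFReal 0 2 s * (g.eval s * F' s) =
      ∫ s, g.eval s * gaussianPDFReal 0 2 s * F' s :=
    integral_congr_ae (Eventually.of_forall fun x => by ring)
  rw [e1, key, ← integral_neg]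
  exact integral_congr_ae (Eventually.of_forall fun x => by ring)

end Pool.Agent.Lib.MP_ec2ab1_pr_h53q2
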