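import Mathlib
import Pool.Agent.Lib.MP_ec2ab1_pr_h53q2.RowB23
import Pool.Agent.Lib.MP_ec2ab1_pr_h53q2.RowB

set_option autoImplicit false

/-!
# Completeness of the Hermite polynomials
-/

namespace Pool.Agent.Lib.MP_ec2ab1_pr_h53q2

open MeasureTheory ProbabilityTheory Polynomial Filter Topology
open scoped ENNReal NNReal
open Pool.Agent.Lib.MP_ec2ab1_pr_h25b (ga et GG bf kf)

/-- finite measures with exponential moments are determined by their moments -/
theorem mom_unique {μ ν : Measure ℝ} [IsFiniteMeasure μ] [IsFiniteMeasure ν]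
    (hμ : ∀ t : ℝ, Integrable (fun x => Real.exp (t * x)) μ)
    (hν : ∀ t : ℝ, Integrable (fun x => Real.exp (t * x)) ν)
    (h : ∀ n : ℕ, ∫ x, x ^ n ∂μ = ∫ x, x ^ n ∂ν) : μ = ν := by
  have key : ∀ (ρ : Measure ℝ), (∀ t : ℝ, Integrable (fun x => Real.exp (t * x)) ρ) →
      integrableExpSet (fun x : ℝ => x) ρ = Set.univ := by
    intro ρ hρ
    ext t
    simp only [Set.mem_univ, iff_true]
    exact hρ t
  have ent : ∀ (ρ : Measure ℝ), (∀ t : ℝ, Integrable (fun x => Real.exp (t * x)) ρ) →
      Differentiable ℂ (complexMGF (fun x : ℝ => x) ρ) := by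
    intro ρ hρ z
    have : z.re ∈ interior (integrableExpSet (fun x : ℝ => x) ρ) := by
      rw [key ρ hρ]; simp
    exact (hasDerivAt_complexMGF this).differentiableAt
  have der : ∀ (ρ : Measure ℝ), (∀ t : ℝ, Integrable (fun x => Real.exp (t * x)) ρ) → ∀ n : ℕ,
      iteratedDeriv n (complexMGF (fun x : ℝ => x) ρ) 0 = ((∫ x, x ^ n ∂ρ : ℝ) : ℂ) := by
    intro ρ hρ n
    have : (0 : ℂ).re ∈ interior (integrableExpSet (fun x : ℝ => x) ρ) := by
      rw [key ρ hρ]; simp
    rw [iteratedDeriv_complexMGF this]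
    simp only [zero_mul, Complex.exp_zero, mul_one]
    rw [← integral_complex_ofReal]
    simp
  have heq : complexMGF (fun x : ℝ => x) μ = complexMGF (fun x : ℝ => x) ν := by
    funext z
    have h1 := Complex.hasSum_taylorSeries_of_entire (ent μ hμ) 0 z
    have h2 := Complex.hasSum_taylorSeries_of_entire (ent ν hν) 0 z
    have e : ∀ n : ℕ, iteratedDeriv n (complexMGF (fun x : ℝ => x) μ) 0 =
        iteratedDeriv n (complexMGF (fun x : ℝ => x) ν) 0 := by
      intro n; rw [der μ hμ, der ν hν, h n]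
    simp_rw [e] at h1
    exact h1.unique h2
  exact Measure.ext_of_complexMGF_id_eq heq

theorem memLp_exp (t : ℝ) : MemLp (fun x : ℝ => Real.exp (t * x)) 2 GG := by
  rw [memLp_two_iff_integrable_sq (by fun_prop)]
  have h := integrable_exp_mul_gaussianReal (μ := 0) (v := 2) (2 * t)
  refine h.congr (Eventually.of_forall fun x => ?_)
  simp only [← Real.exp_nat_mul]
  congr 1
  push_cast
  ring

theorem memLp_pow (n : ℕ) : MemLp (fun x : ℝ => x ^ n) 2 GG := by
  rw [memLp_two_iff_integrable_sq (by fun_prop)]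
  have h := D1_int_poly (X ^ (2 * n))
  refine h.congr (Eventually.of_forall fun x => ?_)
  simp only [eval_pow, eval_X]
  ring

theorem zero_of_mom {F : ℝ → ℝ} (hF : MemLp F 2 GG) (h : ∀ n : ℕ, ∫ x, x ^ n * F x ∂GG = 0) :
    F =ᵐ[GG] 0 := by
  have key : ∀ G : ℝ → ℝ, MemLp G 2 GG →
      IsFiniteMeasure (GG.withDensity fun x => ENNReal.ofReal (G x)) ∧
      (∀ t : ℝ, Integrable (fun x => Real.exp (t * x))
        (GG.withDensity fun x => ENNReal.ofReal (G x))) ∧
      (∀ n : ℕ, ∫ x, x ^ n ∂(GG.withDensity fun x => ENNReal.ofReal (G x)) =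
        ∫ x, x ^ n * max (G x) 0 ∂GG) := by
    intro G hG
    have hi : Integrable G GG := hG.integrable (by norm_num)
    refine ⟨isFiniteMeasure_withDensity_ofReal hi.2, fun t => ?_, fun n => ?_⟩
    · rw [integrable_withDensity_iff_integrable_smul₀' hi.1.aemeasurable.ennreal_ofReal
        (Eventually.of_forall fun _ => ENNReal.ofReal_lt_top)]
      have h1 : Integrable (fun x => G x * Real.exp (t * x)) GG := hG.integrable_mul (memLp_exp t)
      refine h1.mono (hi.1.aemeasurable.ennreal_ofReal.ennreal_toReal.aestronglyMeasurable.smul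
        (by fun_prop)) (Eventually.of_forall fun x => ?_)
      rw [norm_smul, norm_mul]
      refine mul_le_mul_of_nonneg_right ?_ (norm_nonneg _)
      rw [Real.norm_of_nonneg ENNReal.toReal_nonneg, ENNReal.toReal_ofReal']
      exact max_le (le_abs_self _) (abs_nonneg _)
    · rw [integral_withDensity_eq_integral_toReal_smul₀ hi.1.aemeasurable.ennreal_ofReal
        (Eventually.of_forall fun _ => ENNReal.ofReal_lt_top)]
      refine integral_congr_ae (Eventually.of_forall fun x => ?_)
      simp only [smul_eq_mul, ENNReal.toReal_ofReal']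
      rw [mul_comm]
  obtain ⟨f1, e1, m1⟩ := key F hF
  have hFn : MemLp (fun x => -F x) 2 GG := hF.neg
  obtain ⟨f2, e2, m2⟩ := key (fun x => -F x) hFn
  have hpm : ∀ G : ℝ → ℝ, MemLp G 2 GG → ∀ n : ℕ, Integrable (fun x => x ^ n * max (G x) 0) GG := by
    intro G hG n
    have hG' : MemLp (fun x => max (G x) 0) 2 GG := by
      refine hG.mono ?_ (Eventually.of_forall fun x => ?_)
      · exact (hG.1.aemeasurable.max aemeasurable_const).aestronglyMeasurable
      · rw [Real.norm_of_nonneg (le_max_right _ _)]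
        exact max_le (le_abs_self _) (abs_nonneg _)
    exact (memLp_pow n).integrable_mul hG'
  have heq := mom_unique e1 e2 (fun n => by
    rw [m1, m2, ← sub_eq_zero, ← integral_sub (hpm F hF n) (hpm _ hFn n)]
    refine Eq.trans (integral_congr_ae (Eventually.of_forall fun x => ?_)) (h n)
    simp only
    rw [← mul_sub]
    congr 1
    rcases le_total 0 (F x) with h0 | h0
    · rw [max_eq_left h0, max_eq_right (by linarith)]; ring
    · rw [max_eq_right h0, max_eq_left (by linarith)]; ring)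
  have hm := hF.1.aemeasurable
  have hm' := hFn.1.aemeasurable
  rw [withDensity_eq_iff_of_sigmaFinite hm.ennreal_ofReal hm'.ennreal_ofReal] at heq
  filter_upwards [heq] with x hx
  rcases le_total 0 (F x) with h0 | h0
  · have h1 : ENNReal.ofReal (-F x) = 0 := ENNReal.ofReal_of_nonpos (by linarith)
    rw [h1, ENNReal.ofReal_eq_zero] at hx
    exact le_antisymm hx h0
  · have h1 : ENNReal.ofReal (F x) = 0 := ENNReal.ofReal_of_nonpos h0
    rw [h1] at hx
    have h2 := ENNReal.ofReal_eq_zero.1 hx.symm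
    simp only [Pi.zero_apply]
    linarith

/-- a square integrable function orthogonal to all `HP n` vanishes -/
theorem zero_of_HP {F : ℝ → ℝ} (hF : MemLp F 2 GG)
    (h : ∀ n : ℕ, ∫ x, (HP n).eval x * F x ∂GG = 0) : F =ᵐ[GG] 0 := by
  have hpi : ∀ p : ℝ[X], Integrable (fun x => p.eval x * F x) GG := by
    intro p
    have hp : MemLp (fun x => p.eval x) 2 GG := by
      rw [memLp_two_iff_integrable_sq (by fun_prop)]
      have h := D1_int_poly (p ^ 2)
      simpa only [eval_pow] using h
    exact hp.integrable_mul hF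
  have key : ∀ n m : ℕ, ∫ x, (X ^ n * HP m).eval x * F x ∂GG = 0 := by
    intro n
    induction n with
    | zero => intro m; simpa using h m
    | succ n ih =>
      intro m
      have e : X ^ (n + 1) * HP m = C 2 * (X ^ n * HP (m + 1)) + C (m : ℝ) * (X ^ n * HP (m - 1)) := by
        have h1 : C 2 * HP (m + 1) = X * HP m - C (m : ℝ) * HP (m - 1) := by
          have h2 : HP (m + 1) = C (1 / 2) * X * HP m - derivative (HP m) := rfl
          have h3 : (C 2 * C (1 / 2) : ℝ[X]) = 1 := by rw [← C_mul]; norm_num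
          have h4 : (C 2 * C ((m : ℝ) / 2) : ℝ[X]) = C (m : ℝ) := by
            rw [← C_mul]; congr 1; ring
          calc C 2 * HP (m + 1) = (C 2 * C (1 / 2)) * (X * HP m) -
                (C 2 * C ((m : ℝ) / 2)) * HP (m - 1) := by rw [h2, HP_deriv]; ring
            _ = _ := by rw [h3, h4, one_mul]
        calc X ^ (n + 1) * HP m = X ^ n * (X * HP m - C (m : ℝ) * HP (m - 1)) +
              C (m : ℝ) * (X ^ n * HP (m - 1)) := by ring
          _ = _ := by rw [← h1]; ring
      have e2 : ∀ x, (X ^ (n + 1) * HP m).eval x * F x = 2 * ((X ^ n * HP (m + 1)).eval x * F x) +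
          (m : ℝ) * ((X ^ n * HP (m - 1)).eval x * F x) := by
        intro x
        rw [e, eval_add, eval_mul, eval_mul (p := C (m : ℝ)), eval_C, eval_C]
        ring
      simp_rw [e2]
      rw [integral_add ((hpi _).const_mul _) ((hpi _).const_mul _), integral_const_mul,
        integral_const_mul, ih, ih]
      simp
  refine zero_of_mom hF fun n => ?_
  have := key n 0
  simpa [HP] using this

theorem memLp_poly (p : ℝ[X]) : MemLp (fun x => p.eval x) 2 GG := by
  rw [memLp_two_iff_integrable_sq (by fun_prop)]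
  have h := D1_int_poly (p ^ 2)
  simpa only [eval_pow] using h

/-- the normalised Hermite polynomials as elements of `L²` -/
noncomputable def hv (n : ℕ) : Lp ℝ 2 GG :=
  (Real.sqrt (w n))⁻¹ • (memLp_poly (HP n)).toLp

theorem inner_toLp (p : ℝ[X]) (f : Lp ℝ 2 GG) :
    inner ℝ ((memLp_poly p).toLp) f = ∫ x, p.eval x * f x ∂GG := by
  rw [L2.inner_def]
  refine integral_congr_ae ?_
  filter_upwards [(memLp_poly p).coeFn_toLp] with x hx
  rw [hx]
  simp [mul_comm]

theorem orthonormal_hv : Orthonormal ℝ hv := by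
  have hw : ∀ n, 0 < w n := fun n => by unfold w; positivity
  rw [orthonormal_iff_ite]
  intro i j
  unfold hv
  rw [inner_smul_left, inner_smul_right, inner_toLp]
  have e : ∫ x, (HP i).eval x * ((memLp_poly (HP j)).toLp : ℝ → ℝ) x ∂GG =
      ∫ x, (HP i).eval x * (HP j).eval x ∂GG := by
    refine integral_congr_ae ?_
    filter_upwards [(memLp_poly (HP j)).coeFn_toLp] with x hx
    rw [hx]
  rw [e, HP_orth]
  split_ifs with h
  · subst h
    have h1 : Real.sqrt (w i) * Real.sqrt (w i) = w i := Real.mul_self_sqrt (hw i).le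
    have h2 : 0 < Real.sqrt (w i) := Real.sqrt_pos.2 (hw i)
    simp only [RCLike.conj_to_real]
    field_simp
    nlinarith
  · simp

theorem span_hv : (Submodule.span ℝ (Set.range hv))ᗮ = ⊥ := by
  have hw : ∀ n, 0 < w n := fun n => by unfold w; positivity
  rw [eq_bot_iff]
  intro f hf
  rw [Submodule.mem_bot]
  rw [Submodule.mem_orthogonal] at hf
  have h0 : ∀ n, ∫ x, (HP n).eval x * f x ∂GG = 0 := by
    intro n
    have h1 := hf (hv n) (Submodule.subset_span ⟨n, rfl⟩)
    unfold hv at h1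
    rw [inner_smul_left, inner_toLp] at h1
    have h2 : 0 < Real.sqrt (w n) := Real.sqrt_pos.2 (hw n)
    rcases mul_eq_zero.1 h1 with h | h
    · simp only [RCLike.conj_to_real, inv_eq_zero] at h
      exact absurd h h2.ne'
    · exact h
  have h3 := zero_of_HP (Lp.memLp f) h0
  exact (Lp.eq_zero_iff_ae_eq_zero).2 h3

/-- ROW B7: completeness -/
theorem HP_complete {F : ℝ → ℝ} (hF : MemLp F 2 GG) {ε : ℝ} (hε : 0 < ε) :
    ∃ N₀ : ℕ, ∀ N, N₀ ≤ N →
      ∫ s, (F s - ∑ n ∈ Finset.range N, (∫ t, (HP n).eval t * F t ∂GG) / w n * (HP n).eval s) ^ 2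
        ∂GG ≤ ε := by
  have hw : ∀ n, 0 < w n := fun n => by unfold w; positivity
  set b := HilbertBasis.mkOfOrthogonalEqBot orthonormal_hv span_hv with hb
  set f : Lp ℝ 2 GG := hF.toLp with hf
  have hs := (b.hasSum_repr f).tendsto_sum_nat
  have hcoe : ∀ n, b n = hv n := fun n => by
    rw [hb, HilbertBasis.coe_mkOfOrthogonalEqBot]
  have hrepr : ∀ n, b.repr f n • b n =
      ((∫ t, (HP n).eval t * F t ∂GG) / w n) • (memLp_poly (HP n)).toLp := by
    intro n
    rw [b.repr_apply_apply, hcoe]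
    unfold hv
    rw [inner_smul_left, inner_toLp, smul_smul]
    have e : ∫ x, (HP n).eval x * (f : ℝ → ℝ) x ∂GG = ∫ t, (HP n).eval t * F t ∂GG := by
      refine integral_congr_ae ?_
      filter_upwards [hF.coeFn_toLp] with x hx
      rw [hf, hx]
    rw [e]
    congr 1
    have h1 : Real.sqrt (w n) * Real.sqrt (w n) = w n := Real.mul_self_sqrt (hw n).le
    have h2 : 0 < Real.sqrt (w n) := Real.sqrt_pos.2 (hw n)
    have h3 := hw n
    simp only [RCLike.conj_to_real]
    rw [div_eq_mul_inv (∫ t, (HP n).eval t * F t ∂GG), ← h1, mul_inv, h1]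
    ring
  simp_rw [hrepr] at hs
  rw [Metric.tendsto_atTop] at hs
  obtain ⟨N₀, hN₀⟩ := hs (Real.sqrt ε) (Real.sqrt_pos.2 hε)
  refine ⟨N₀, fun N hN => ?_⟩
  have h1 := hN₀ N hN
  rw [dist_comm, dist_eq_norm] at h1
  have h2 : ‖f - ∑ n ∈ Finset.range N, ((∫ t, (HP n).eval t * F t ∂GG) / w n) •
      (memLp_poly (HP n)).toLp‖ ^ 2 ≤ ε := by
    rw [← Real.sq_sqrt hε.le]
    exact pow_le_pow_left₀ (norm_nonneg _) h1.le 2
  refine le_trans (le_of_eq ?_) h2
  rw [← real_inner_self_eq_norm_sq, L2.inner_def]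
  refine integral_congr_ae ?_
  have hsum : ((∑ n ∈ Finset.range N, ((∫ t, (HP n).eval t * F t ∂GG) / w n) •
      (memLp_poly (HP n)).toLp : Lp ℝ 2 GG) : ℝ → ℝ) =ᵐ[GG]
      fun x => ∑ n ∈ Finset.range N, (∫ t, (HP n).eval t * F t ∂GG) / w n * (HP n).eval x := by
    refine (Lp.coeFn_finsetSum _ _).trans ?_
    have : ∀ n : ℕ, ((((∫ t, (HP n).eval t * F t ∂GG) / w n) •
      (memLp_poly (HP n)).toLp : Lp ℝ 2 GG) : ℝ → ℝ) =ᵐ[GG]
      fun x => (∫ t, (HP n).eval t * F t ∂GG) / w n * (HP n).eval x := by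
      intro n
      filter_upwards [Lp.coeFn_smul ((∫ t, (HP n).eval t * F t ∂GG) / w n)
        ((memLp_poly (HP n)).toLp), (memLp_poly (HP n)).coeFn_toLp] with x hx1 hx2
      rw [hx1, Pi.smul_apply, hx2, smul_eq_mul]
    filter_upwards [ae_all_iff.2 this] with x hx
    simp only [Finset.sum_apply]
    exact Finset.sum_congr rfl fun n _ => hx n
  filter_upwards [Lp.coeFn_sub f (∑ n ∈ Finset.range N, ((∫ t, (HP n).eval t * F t ∂GG) / w n) •
      (memLp_poly (HP n)).toLp), hsum, hF.coeFn_toLp] with x h1 h2 h3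
  rw [h1, Pi.sub_apply, h2, hf, h3]
  simp [sq]

end Pool.Agent.Lib.MP_ec2ab1_pr_h53q2
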