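import Mathlib
import Pool.Agent.Lib.MP_ec2ab1_pr_h53q2.RowB23
import Pool.Agent.Lib.MP_ec2ab1_pr_h53q2.RowB

set_option autoImplicit false

/-!
# Coefficients of densities
-/

namespace Pool.Agent.Lib.MP_ec2ab1_pr_h53q2

open MeasureTheory ProbabilityTheory Polynomial Filter Topology
open scoped ENNReal NNReal
open Pool.Agent.Lib.MP_ec2ab1_pr_h25b (ga et GG bf kf map_GG)

theorem ga_int_poly (p : ℝ[X]) : Integrable (fun s => p.eval s) ga := by
  induction p using Polynomial.induction_on' with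
  | add p q hp hq =>
    simp only [eval_add]
    exact hp.add hq
  | monomial n a =>
    simp only [eval_monomial]
    refine Integrable.const_mul ?_ a
    have := (memLp_id_gaussianReal (μ := 0) (v := 1) n).integrable_norm_pow'
    refine this.mono (by fun_prop) (Eventually.of_forall fun x => ?_)
    simp

theorem ga_integrable_poly (g : ℝ[X]) {F : ℝ → ℝ} (hF : Measurable F) {K : ℝ}
    (hK : ∀ s, |F s| ≤ K) : Integrable (fun s => g.eval s * F s) ga := by
  refine ((ga_int_poly g).norm.mul_const K).mono (by fun_prop) (Eventually.of_forall fun x => ?_)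
  have hK0 : 0 ≤ K := (abs_nonneg _).trans (hK 0)
  rw [norm_mul, norm_mul, norm_norm, Real.norm_of_nonneg hK0]
  exact mul_le_mul_of_nonneg_left (hK x) (norm_nonneg _)

/-- change of variables -/
theorem coef_prod {p q : ℝ → ℝ} (hp : Measurable p) (hq' : Measurable q) {C D : ℝ}
    (hC : ∀ x, |p x| ≤ C) (hD : ∀ x, |q x| ≤ D) (g : ℝ[X]) :
    ∫ s, g.eval s * (∫ x, p (s / 2 + x) * q (s / 2 - x) ∂et) ∂GG =
      ∫ z : ℝ × ℝ, g.eval (z.1 + z.2) * (p z.1 * q z.2) ∂(ga.prod ga) := by
  have hC0 : 0 ≤ C := (abs_nonneg _).trans (hC 0)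
  have hD0 : 0 ≤ D := (abs_nonneg _).trans (hD 0)
  have hi : Integrable (fun z : ℝ × ℝ => g.eval z.1 * (p (z.1 / 2 + z.2) * q (z.1 / 2 - z.2)))
      (GG.prod et) := by
    have h1 : Integrable (fun z : ℝ × ℝ => ‖g.eval z.1‖ * (C * D)) (GG.prod et) :=
      ((D1_int_poly g).norm.comp_fst et).mul_const _
    refine h1.mono (by fun_prop) (Eventually.of_forall fun z => ?_)
    rw [norm_mul, norm_mul, norm_mul (‖g.eval z.1‖), norm_norm,
      Real.norm_of_nonneg (mul_nonneg hC0 hD0)]
    exact mul_le_mul_of_nonneg_left (mul_le_mul (hC _) (hD _) (norm_nonneg _) hC0) (norm_nonneg _)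
  have e1 : ∫ s, g.eval s * (∫ x, p (s / 2 + x) * q (s / 2 - x) ∂et) ∂GG =
      ∫ s, ∫ x, g.eval s * (p (s / 2 + x) * q (s / 2 - x)) ∂et ∂GG :=
    integral_congr_ae (Eventually.of_forall fun s => (integral_const_mul _ _).symm)
  rw [e1, ← integral_prod _ hi, ← map_GG, integral_map (by fun_prop) (by fun_prop)]
  refine integral_congr_ae (Eventually.of_forall fun z => ?_)
  simp only []
  congr 2
  ring

theorem coef_prod_HP {p q : ℝ → ℝ} (hp : Measurable p) (hq' : Measurable q) {C D : ℝ}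
    (hC : ∀ x, |p x| ≤ C) (hD : ∀ x, |q x| ≤ D) (n : ℕ) :
    ∫ s, (HP n).eval s * (∫ x, p (s / 2 + x) * q (s / 2 - x) ∂et) ∂GG =
      w n * ∑ ij ∈ Finset.HasAntidiagonal.antidiagonal n, cf p ij.1 * cf q ij.2 := by
  rw [coef_prod hp hq' hC hD (HP n)]
  have e : ∀ z : ℝ × ℝ, (HP n).eval (z.1 + z.2) * (p z.1 * q z.2) =
      w n * ∑ ij ∈ Finset.HasAntidiagonal.antidiagonal n,
        ((hq ij.1).eval z.1 * p z.1) * ((hq ij.2).eval z.2 * q z.2) := by
    intro z
    rw [HP_add, mul_assoc, Finset.sum_mul]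
    congr 1
    exact Finset.sum_congr rfl fun ij _ => by ring
  simp_rw [e]
  rw [integral_const_mul, integral_finsetSum]
  · congr 1
    refine Finset.sum_congr rfl fun ij _ => ?_
    exact integral_prod_mul (fun x => (hq ij.1).eval x * p x) (fun x => (hq ij.2).eval x * q x)
  · intro ij _
    exact (ga_integrable_poly _ hp hC).mul_prod (ga_integrable_poly _ hq' hD)

variable {p : ℝ → ℝ} {M : ℝ}

theorem abs_le_of {p : ℝ → ℝ} (h0 : ∀ x, 0 ≤ p x) (hpM : ∀ x, p x ≤ M) (x : ℝ) : |p x| ≤ M := by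
  rw [abs_of_nonneg (h0 x)]; exact hpM x

/-- ROW C2 -/
theorem coef_kf (hp : Measurable p) (h0 : ∀ x, 0 ≤ p x) (hpM : ∀ x, p x ≤ M) (n : ℕ) :
    ∫ s, (HP n).eval s * kf p s ∂GG = w n * csq (cf p) n :=
  coef_prod_HP hp hp (abs_le_of h0 hpM) (abs_le_of h0 hpM) n

theorem cf_one_zero : cf (fun _ => 1) 0 = 1 := by
  simp [cf, hq]

theorem HP_int (n : ℕ) (hn : n ≠ 0) : ∫ s, (HP n).eval s ∂GG = 0 := by
  have := HP_orth n 0
  rw [if_neg hn] at this
  simpa [HP] using this

theorem cf_one (n : ℕ) (hn : n ≠ 0) : cf (fun _ => 1) n = 0 := by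
  induction n using Nat.strong_induction_on with
  | _ n ih =>
    have h1 := coef_prod_HP (p := fun _ => 1) (q := fun _ => 1) measurable_const measurable_const
      (C := 1) (D := 1) (by simp) (by simp) n
    have h2 : ∫ s, (HP n).eval s * (∫ x : ℝ, (1 : ℝ) * 1 ∂et) ∂GG = 0 := by
      simp [HP_int n hn]
    rw [h2] at h1
    have h3 : ∑ ij ∈ Finset.HasAntidiagonal.antidiagonal n,
        cf (fun _ => 1) ij.1 * cf (fun _ => 1) ij.2 = 2 * cf (fun _ => 1) n := by
      have hsub : ({(0, n), (n, 0)} : Finset (ℕ × ℕ)) ⊆ Finset.HasAntidiagonal.antidiagonal n := by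
        intro ij hij
        simp only [Finset.mem_insert, Finset.mem_singleton] at hij
        rw [Finset.HasAntidiagonal.mem_antidiagonal]
        rcases hij with rfl | rfl <;> simp
      rw [← Finset.sum_subset hsub, Finset.sum_pair, cf_one_zero]
      · ring
      · simp only [ne_eq, Prod.mk.injEq, not_and]
        intro h; exact absurd h.symm hn
      · intro ij hij hnot
        rw [Finset.HasAntidiagonal.mem_antidiagonal] at hij
        simp only [Finset.mem_insert, Finset.mem_singleton, not_or] at hnot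
        have h1 : ij.1 ≠ 0 := fun h => hnot.1 (by ext <;> simp <;> omega)
        have h2 : ij.2 ≠ 0 := fun h => hnot.2 (by ext <;> simp <;> omega)
        rw [ih ij.1 (by omega) h1, zero_mul]
    rw [h3] at h1
    have hw : 0 < w n := by unfold w; positivity
    have := mul_eq_zero.1 h1.symm
    rcases this with h | h
    · exact absurd h hw.ne'
    · linarith

/-- ROW C3 -/
theorem coef_bf (hp : Measurable p) (h0 : ∀ x, 0 ≤ p x) (hpM : ∀ x, p x ≤ M) (n : ℕ) :
    ∫ s, (HP n).eval s * bf p s ∂GG = w n * cf p n := by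
  have h1 := coef_prod_HP (p := p) (q := fun _ => 1) hp measurable_const
      (C := M) (D := 1) (abs_le_of h0 hpM) (by simp) n
  have h2 : ∀ s, ∫ x, p (s / 2 + x) * (1 : ℝ) ∂et = bf p s := by
    intro s; simp [bf]
  simp_rw [h2] at h1
  rw [h1]
  congr 1
  rw [Finset.sum_eq_single (n, 0)]
  · rw [cf_one_zero, mul_one]
  · intro ij hij hne
    rw [Finset.HasAntidiagonal.mem_antidiagonal] at hij
    have h2 : ij.2 ≠ 0 := fun h => hne (by ext <;> simp <;> omega)
    rw [cf_one _ h2, mul_zero]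
  · intro h
    exact absurd (Finset.HasAntidiagonal.mem_antidiagonal.2 (by simp)) h

/-- ROW C1 -/
theorem cf_bound (hp : Measurable p) (h0 : ∀ x, 0 ≤ p x) (hpM : ∀ x, p x ≤ M) (n : ℕ) :
    |cf p n| ≤ M / Real.sqrt n.factorial := by
  have hM : 0 ≤ M := (h0 0).trans (hpM 0)
  set r : ℝ := (Real.sqrt n.factorial)⁻¹ with hr
  have hs : 0 < Real.sqrt n.factorial := Real.sqrt_pos.2 (by exact_mod_cast n.factorial_pos)
  have hr0 : 0 < r := inv_pos.2 hs
  have hr2 : r ^ 2 = (n.factorial : ℝ)⁻¹ := by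
    rw [hr, inv_pow, Real.sq_sqrt (by positivity)]
  have hsq : Integrable (fun x => (hq n).eval x ^ 2) ga := by
    have := ga_int_poly (hq n ^ 2)
    simpa only [eval_pow] using this
  have hpt : ∀ x, ‖(hq n).eval x * p x‖ ≤ M * ((hq n).eval x ^ 2 / (2 * r) + r / 2) := by
    intro x
    rw [norm_mul, Real.norm_eq_abs, Real.norm_eq_abs, mul_comm]
    refine mul_le_mul (abs_le_of h0 hpM x) ?_ (abs_nonneg _) hM
    rw [← sq_abs]
    have h1 : |(hq n).eval x| = |(hq n).eval x| * r / r := by field_simp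
    have h2 : |(hq n).eval x| ^ 2 / (2 * r) + r / 2 - |(hq n).eval x| =
        (|(hq n).eval x| - r) ^ 2 / (2 * r) := by field_simp; ring
    have h3 : 0 ≤ (|(hq n).eval x| - r) ^ 2 / (2 * r) := by positivity
    linarith
  have hi : Integrable (fun x => M * ((hq n).eval x ^ 2 / (2 * r) + r / 2)) ga :=
    ((hsq.div_const _).add (integrable_const _)).const_mul M
  have h1 := norm_integral_le_of_norm_le hi (Eventually.of_forall hpt)
  rw [Real.norm_eq_abs] at h1
  refine h1.trans (le_of_eq ?_)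
  rw [integral_const_mul, integral_add (hsq.div_const _) (integrable_const _), integral_div, hq_sq,
    integral_const, ← hr2]
  simp only [probReal_univ, smul_eq_mul, one_mul]
  rw [div_eq_mul_inv M, ← hr]
  congr 1
  field_simp
  ring

end Pool.Agent.Lib.MP_ec2ab1_pr_h53q2
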