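import Mathlib
import Pool.Agent.Lib.MP_ec2ab1_pr_h53q2.Defs

set_option autoImplicit false

namespace Pool.Agent.Lib.MP_ec2ab1_pr_h53q2

open MeasureTheory ProbabilityTheory Polynomial
open scoped ENNReal NNReal
open Pool.Agent.Lib.MP_ec2ab1_pr_h25b (ga et GG bf kf)

private theorem g_formula (x : ℝ) :
    gaussianPDFReal 0 (1 / 2) x = (Real.sqrt Real.pi)⁻¹ * Real.exp (-x ^ 2) := by
  rw [gaussianPDFReal_def]
  simp only [sub_zero]
  have h1 : (2 * Real.pi * ((1 / 2 : ℝ≥0) : ℝ)) = Real.pi := by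
    push_cast; ring
  have h2 : -x ^ 2 / (2 * ((1 / 2 : ℝ≥0) : ℝ)) = -x ^ 2 := by
    push_cast; ring
  rw [h1, h2]

private theorem bf_formula (p : ℝ → ℝ) (s : ℝ) :
    bf p s = ∫ y, p y * gaussianPDFReal 0 (1 / 2) (y - s / 2) := by
  have h1 : bf p s = ∫ x, gaussianPDFReal 0 (1 / 2) x * p (s / 2 + x) := by
    change ∫ x, p (s / 2 + x) ∂(gaussianReal 0 (1 / 2)) = _
    rw [integral_gaussianReal_eq_integral_smul (by norm_num)]
    rfl
  rw [h1, ← integral_sub_right_eq_self (fun x => gaussianPDFReal 0 (1 / 2) x * p (s / 2 + x)) (s / 2)]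
  refine integral_congr_ae (Filter.Eventually.of_forall fun y => ?_)
  simp only []
  rw [add_sub_cancel, mul_comm]

private theorem env (x t : ℝ) (ht : |t| ≤ 1 / 2) :
    (|x - t| + 1) * Real.exp (-(x - t) ^ 2) ≤ 4 * Real.exp (-(1 / 4) * x ^ 2) := by
  have h1 : |x - t| ≤ Real.exp ((x - t) ^ 2 / 2) := by
    have h2 : |x - t| ≤ (x - t) ^ 2 / 2 + 1 := by
      rw [← sq_abs (x - t)]
      nlinarith [sq_nonneg (|x - t| - 1)]
    exact h2.trans (Real.add_one_le_exp _)
  have h1' : 1 ≤ Real.exp ((x - t) ^ 2 / 2) := Real.one_le_exp (by positivity)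
  have h3 : (|x - t| + 1) * Real.exp (-(x - t) ^ 2) ≤ 2 * Real.exp (-(x - t) ^ 2 / 2) := by
    calc (|x - t| + 1) * Real.exp (-(x - t) ^ 2)
        ≤ (2 * Real.exp ((x - t) ^ 2 / 2)) * Real.exp (-(x - t) ^ 2) :=
          mul_le_mul_of_nonneg_right (by linarith) (Real.exp_pos _).le
      _ = 2 * Real.exp (-(x - t) ^ 2 / 2) := by
          rw [mul_assoc, ← Real.exp_add]; congr 2; ring
  have h4 : Real.exp (-(x - t) ^ 2 / 2) ≤ 2 * Real.exp (-(1 / 4) * x ^ 2) := by
    have h5 : -(x - t) ^ 2 / 2 ≤ 1 / 8 + -(1 / 4) * x ^ 2 := by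
      have := abs_le.1 ht
      nlinarith [sq_nonneg (x - 2 * t), this.1, this.2]
    have h6 : Real.exp (1 / 8) ≤ 2 := by
      have := Real.exp_one_lt_d9
      have h7 : Real.exp (1 / 8) ≤ Real.exp 1 := Real.exp_le_exp.2 (by norm_num)
      have h8 : Real.exp (1 / 8) ^ 8 = Real.exp 1 := by
        rw [← Real.exp_nat_mul]; norm_num
      by_contra hcon
      push Not at hcon
      have h9 : (2 : ℝ) ^ 8 < Real.exp (1 / 8) ^ 8 := pow_lt_pow_left₀ hcon (by norm_num) (by norm_num)
      rw [h8] at h9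
      linarith
    calc Real.exp (-(x - t) ^ 2 / 2) ≤ Real.exp (1 / 8 + -(1 / 4) * x ^ 2) := Real.exp_le_exp.2 h5
      _ = Real.exp (1 / 8) * Real.exp (-(1 / 4) * x ^ 2) := Real.exp_add _ _
      _ ≤ _ := mul_le_mul_of_nonneg_right h6 (Real.exp_pos _).le
  linarith

/-- ROW C4 -/
theorem bf_smooth {p : ℝ → ℝ} {M : ℝ} (hp : Measurable p) (h0 : ∀ x, 0 ≤ p x) (hpM : ∀ x, p x ≤ M) :
    ∃ v' : ℝ → ℝ, Continuous v' ∧ (∀ s, HasDerivAt (bf p) (v' s) s) ∧ ∃ K, ∀ s, |v' s| ≤ K := by
  have hM : 0 ≤ M := (h0 0).trans (hpM 0)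
  set g : ℝ → ℝ := gaussianPDFReal 0 (1 / 2) with hg
  have hgf : ∀ x, g x = (Real.sqrt Real.pi)⁻¹ * Real.exp (-x ^ 2) := g_formula
  have hπ : (Real.sqrt Real.pi)⁻¹ ≤ 1 := by
    apply inv_le_one_of_one_le₀
    rw [Real.one_le_sqrt]
    linarith [Real.pi_gt_three]
  have hπ0 : 0 < (Real.sqrt Real.pi)⁻¹ := inv_pos.2 (Real.sqrt_pos.2 Real.pi_pos)
  have hgd : ∀ x, HasDerivAt g (-2 * x * g x) x := by
    intro x
    have h1 : HasDerivAt (fun x : ℝ => (Real.sqrt Real.pi)⁻¹ * Real.exp (-x ^ 2))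
        ((Real.sqrt Real.pi)⁻¹ * (Real.exp (-x ^ 2) * (-(2 * x)))) x := by
      have := ((hasDerivAt_pow 2 x).neg.exp).const_mul (Real.sqrt Real.pi)⁻¹
      convert! this using 2
      simp
    have h2 : g = fun x : ℝ => (Real.sqrt Real.pi)⁻¹ * Real.exp (-x ^ 2) := funext hgf
    rw [h2]
    convert! h1 using 1
    ring
  set v' : ℝ → ℝ := fun s => ∫ y, p y * ((y - s / 2) * g (y - s / 2)) with hv'
  have hgc : Continuous g := by
    have h2 : g = fun x : ℝ => (Real.sqrt Real.pi)⁻¹ * Real.exp (-x ^ 2) := funext hgf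
    rw [h2]; fun_prop
  have hbound : ∀ s₀ s y : ℝ, |s - s₀| ≤ 1 →
      |p y * ((y - s / 2) * g (y - s / 2))| ≤ 4 * M * Real.exp (-(1 / 4) * (y - s₀ / 2) ^ 2) := by
    intro s₀ s y hs
    have ht : |(s - s₀) / 2| ≤ 1 / 2 := by
      rw [abs_div, abs_two]; linarith
    have he := env (y - s₀ / 2) ((s - s₀) / 2) ht
    have e1 : y - s₀ / 2 - (s - s₀) / 2 = y - s / 2 := by ring
    rw [e1] at he
    rw [abs_mul, abs_mul, hgf, abs_of_nonneg (h0 y), abs_mul, abs_of_pos hπ0,
      abs_of_pos (Real.exp_pos _)]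
    have h3 : |y - s / 2| * ((Real.sqrt Real.pi)⁻¹ * Real.exp (-(y - s / 2) ^ 2)) ≤
        4 * Real.exp (-(1 / 4) * (y - s₀ / 2) ^ 2) := by
      refine le_trans ?_ he
      have h4 : |y - s / 2| * ((Real.sqrt Real.pi)⁻¹ * Real.exp (-(y - s / 2) ^ 2)) ≤
          |y - s / 2| * (1 * Real.exp (-(y - s / 2) ^ 2)) :=
        mul_le_mul_of_nonneg_left (mul_le_mul_of_nonneg_right hπ (Real.exp_pos _).le) (abs_nonneg _)
      have h5 : 0 ≤ Real.exp (-(y - s / 2) ^ 2) := (Real.exp_pos _).le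
      nlinarith
    calc _ ≤ M * (4 * Real.exp (-(1 / 4) * (y - s₀ / 2) ^ 2)) :=
          mul_le_mul (hpM y) h3 (by positivity) hM
      _ = _ := by ring
  have hint : ∀ s₀ : ℝ, Integrable (fun y => 4 * M * Real.exp (-(1 / 4) * (y - s₀ / 2) ^ 2)) := by
    intro s₀
    have := (integrable_exp_neg_mul_sq (b := 1 / 4) (by norm_num)).comp_sub_right (s₀ / 2)
    exact this.const_mul _
  have hmeas : ∀ s : ℝ, Measurable (fun y => p y * ((y - s / 2) * g (y - s / 2))) := by
    intro s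
    exact hp.mul ((by fun_prop : Measurable fun y : ℝ => y - s / 2).mul
      (hgc.measurable.comp (by fun_prop)))
  refine ⟨v', ?_, ?_, ?_⟩
  · rw [continuous_iff_continuousAt]
    intro s₀
    refine continuousAt_of_dominated (bound := fun y => 4 * M * Real.exp (-(1 / 4) * (y - s₀ / 2) ^ 2))
      (Filter.Eventually.of_forall fun s => (hmeas s).aestronglyMeasurable) ?_ (hint s₀) ?_
    · filter_upwards [Metric.closedBall_mem_nhds s₀ one_pos] with s hs
      refine Filter.Eventually.of_forall fun y => ?_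
      rw [Real.norm_eq_abs]
      exact hbound s₀ s y (by rwa [Metric.mem_closedBall, Real.dist_eq] at hs)
    · refine Filter.Eventually.of_forall fun y => ?_
      have : Continuous fun s : ℝ => p y * ((y - s / 2) * g (y - s / 2)) := by
        have hc2 : Continuous fun s : ℝ => g (y - s / 2) := hgc.comp (by fun_prop)
        fun_prop
      exact this.continuousAt
  · intro s₀
    have hgint : Integrable (fun y => p y * g (y - s₀ / 2)) := by
      have h1 : Integrable (fun y => g (y - s₀ / 2)) :=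
        (integrable_gaussianPDFReal 0 (1 / 2)).comp_sub_right (s₀ / 2)
      refine h1.bdd_mul (c := M) hp.aestronglyMeasurable (Filter.Eventually.of_forall fun y => ?_)
      rw [Real.norm_eq_abs, abs_of_nonneg (h0 y)]
      exact hpM y
    have key := hasDerivAt_integral_of_dominated_loc_of_deriv_le
      (F := fun s y => p y * g (y - s / 2)) (F' := fun s y => p y * ((y - s / 2) * g (y - s / 2)))
      (x₀ := s₀) (s := Metric.ball s₀ 1)
      (bound := fun y => 4 * M * Real.exp (-(1 / 4) * (y - s₀ / 2) ^ 2)) (μ := volume)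
      (Metric.ball_mem_nhds s₀ one_pos)
      (Filter.Eventually.of_forall fun s => (hp.mul (hgc.measurable.comp
        (by fun_prop : Measurable fun y : ℝ => y - s / 2))).aestronglyMeasurable)
      hgint (hmeas s₀).aestronglyMeasurable
      (Filter.Eventually.of_forall fun y s hs => by
        rw [Real.norm_eq_abs]
        refine hbound s₀ s y ?_
        rw [Metric.mem_ball, Real.dist_eq] at hs
        exact hs.le)
      (hint s₀)
      (Filter.Eventually.of_forall fun y s _ => by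
        have h1 : HasDerivAt (fun s : ℝ => y - s / 2) (-(1 / 2)) s := by
          have := (hasDerivAt_id s).div_const 2
          simpa using this.const_sub y
        have h2 := (hgd (y - s / 2)).comp s h1
        have h3 := h2.const_mul (p y)
        convert! h3 using 1
        ring)
    have h5 : bf p = fun s => ∫ y, p y * g (y - s / 2) := funext fun s => bf_formula p s
    rw [h5]
    exact key.2
  · refine ⟨∫ y, 4 * M * Real.exp (-(1 / 4) * y ^ 2), fun s => ?_⟩
    have h1 := norm_integral_le_of_norm_le (hint s)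
      (Filter.Eventually.of_forall fun y => by
        rw [Real.norm_eq_abs]
        exact hbound s s y (by simp))
    rw [Real.norm_eq_abs] at h1
    refine h1.trans (le_of_eq ?_)
    exact integral_sub_right_eq_self (fun y => 4 * M * Real.exp (-(1 / 4) * y ^ 2)) (s / 2)

end Pool.Agent.Lib.MP_ec2ab1_pr_h53q2
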