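import Mathlib
import Pool.Agent.Lib.MP_ec2ab1_pr_h53q2.RowB23

set_option autoImplicit false

namespace Pool.Agent.Lib.MP_ec2ab1_pr_h53q2

open MeasureTheory ProbabilityTheory Polynomial
open scoped ENNReal NNReal
open Pool.Agent.Lib.MP_ec2ab1_pr_h25b (ga et GG bf kf GG_withDensity integrable_bdd)

private theorem pdf2_formula (x : ℝ) :
    gaussianPDFReal 0 2 x = (Real.sqrt (4 * Real.pi))⁻¹ * Real.exp (-x ^ 2 / 4) := by
  rw [gaussianPDFReal_def]
  simp only [sub_zero]
  have h1 : (2 * Real.pi * ((2 : ℝ≥0) : ℝ)) = 4 * Real.pi := by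
    push_cast; ring
  have h2 : -x ^ 2 / (2 * ((2 : ℝ≥0) : ℝ)) = -x ^ 2 / 4 := by
    push_cast; ring
  rw [h1, h2]

private theorem pdf2_deriv (x : ℝ) :
    HasDerivAt (gaussianPDFReal 0 2) (-(x / 2) * gaussianPDFReal 0 2 x) x := by
  have h2 : gaussianPDFReal 0 2 = fun x : ℝ => (Real.sqrt (4 * Real.pi))⁻¹ * Real.exp (-x ^ 2 / 4) :=
    funext pdf2_formula
  have h1 : HasDerivAt (fun x : ℝ => (Real.sqrt (4 * Real.pi))⁻¹ * Real.exp (-x ^ 2 / 4))
      ((Real.sqrt (4 * Real.pi))⁻¹ * (Real.exp (-x ^ 2 / 4) * (-(2 * x) / 4))) x := by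
    have := (((hasDerivAt_pow 2 x).neg.div_const 4).exp).const_mul (Real.sqrt (4 * Real.pi))⁻¹
    convert! this using 2
    simp
  rw [h2]
  convert! h1 using 1
  ring

/-- ROW D2 -/
theorem fisher_upper {v v' : ℝ → ℝ} (hv : ∀ s, HasDerivAt v (v' s) s) (hc : Continuous v')
    {m M K : ℝ} (hm : 0 < m) (h0 : ∀ s, m ≤ v s) (hM : ∀ s, v s ≤ M) (hK : ∀ s, |v' s| ≤ K)
    (h1 : ∫ s, v s ∂GG = 1) (h2 : ∫ s, s ^ 2 * v s ∂GG = 2) :
    fisher (GG.withDensity (fun s => ENNReal.ofReal (v s))) ≤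
      ENNReal.ofReal (1 / 2 + ∫ s, v' s ^ 2 / v s ∂GG) := by
  have hvc : Continuous v := continuous_iff_continuousAt.2 fun s => (hv s).continuousAt
  have hvpos : ∀ s, 0 < v s := fun s => hm.trans_le (h0 s)
  set g : ℝ → ℝ := gaussianPDFReal 0 2 with hg
  have hgpos : ∀ s, 0 < g s := fun s => gaussianPDFReal_pos 0 2 s (by norm_num)
  have hgd : ∀ s, HasDerivAt g (-(s / 2) * g s) s := pdf2_deriv
  have hgc : Continuous g := continuous_iff_continuousAt.2 fun s => (hgd s).continuousAt
  set f : ℝ → ℝ := fun s => g s * v s with hf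
  have hfd : ∀ s, HasDerivAt f (g s * (v' s - s / 2 * v s)) s := by
    intro s
    have := (hgd s).mul (hv s)
    convert! this using 1
    ring
  have hfC1 : ContDiff ℝ 1 f := by
    rw [contDiff_one_iff_deriv]
    refine ⟨fun s => (hfd s).differentiableAt, ?_⟩
    have : deriv f = fun s => g s * (v' s - s / 2 * v s) := funext fun s => (hfd s).deriv
    rw [this]
    fun_prop
  have hmem : f ∈ {f : ℝ → ℝ | (∀ a b, AbsolutelyContinuousOnInterval f a b) ∧ (∀ x, 0 ≤ f x) ∧
      GG.withDensity (fun s => ENNReal.ofReal (v s)) =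
        volume.withDensity (fun x => ENNReal.ofReal (f x))} :=
    ⟨fun a b => hfC1.contDiffOn.absolutelyContinuousOnInterval,
      fun x => (mul_pos (hgpos x) (hvpos x)).le, GG_withDensity hvc.measurable⟩
  refine (iInf₂_le f hmem).trans ?_
  -- integrals
  have hvabs : ∀ s, |v s| ≤ max M K := fun s => by
    rw [abs_of_pos (hvpos s)]; exact (hM s).trans (le_max_left _ _)
  have hv'abs : ∀ s, |v' s| ≤ max M K := fun s => (hK s).trans (le_max_right _ _)
  have i1 : Integrable (fun s => v' s ^ 2 / v s) GG := by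
    refine integrable_bdd ((hc.measurable.pow_const 2).div hvc.measurable) (C := K ^ 2 / m)
      fun s => ?_
    rw [abs_div, abs_pow, abs_of_pos (hvpos s)]
    exact div_le_div₀ (by positivity) (pow_le_pow_left₀ (abs_nonneg _) (hK s) 2) hm (h0 s)
  have i2 : Integrable (fun s => s * v' s) GG := by
    simpa using integrable_poly X hc.measurable hv'abs
  have i3 : Integrable (fun s => s ^ 2 * v s) GG :=
    (integrable_poly (X ^ 2) hvc.measurable hvabs).congr
      (Filter.Eventually.of_forall fun s => by simp only [eval_pow, eval_X])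
  have i4 : Integrable v GG := by
    simpa using integrable_poly 1 hvc.measurable hvabs
  have hparts : ∫ s, s * v' s ∂GG = 0 := by
    have := int_parts hv hc hvabs hv'abs X
    simp only [eval_X, derivative_X, eval_one] at this
    rw [this]
    have e : ∀ s : ℝ, (s / 2 * s - 1) * v s = 1 / 2 * (s ^ 2 * v s) - v s := fun s => by ring
    simp_rw [e]
    rw [integral_sub (i3.const_mul _) i4, integral_const_mul, h1, h2]
    norm_num
  have hnn : ∀ s, 0 ≤ (v' s - s / 2 * v s) ^ 2 / v s := fun s => div_nonneg (sq_nonneg _) (hvpos s).le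
  have e2 : ∀ s, (v' s - s / 2 * v s) ^ 2 / v s =
      v' s ^ 2 / v s - s * v' s + 1 / 4 * (s ^ 2 * v s) := by
    intro s
    have := (hvpos s).ne'
    field_simp
    ring
  have i5 : Integrable (fun s => (v' s - s / 2 * v s) ^ 2 / v s) GG := by
    refine ((i1.sub i2).add (i3.const_mul (1 / 4))).congr (Filter.Eventually.of_forall fun s => ?_)
    simp only [Pi.add_apply, Pi.sub_apply]
    rw [e2 s]
  have hval : ∫ s, (v' s - s / 2 * v s) ^ 2 / v s ∂GG = 1 / 2 + ∫ s, v' s ^ 2 / v s ∂GG := by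
    simp_rw [e2]
    have i12 : Integrable (fun s => v' s ^ 2 / v s - s * v' s) GG := i1.sub i2
    rw [integral_add i12 (i3.const_mul _), integral_sub i1 i2, integral_const_mul, hparts, h2]
    ring
  rw [← hval, ofReal_integral_eq_lintegral_ofReal i5 (Filter.Eventually.of_forall hnn)]
  have hGG : GG = volume.withDensity (gaussianPDF 0 2) := by
    change gaussianReal 0 2 = _
    rw [gaussianReal_of_var_ne_zero 0 (by norm_num : (2 : ℝ≥0) ≠ 0)]
  rw [hGG, lintegral_withDensity_eq_lintegral_mul _ (measurable_gaussianPDF 0 2) (by fun_prop)]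
  refine (setLIntegral_le_lintegral _ _).trans (le_of_eq ?_)
  refine lintegral_congr fun s => ?_
  rw [Pi.mul_apply, gaussianPDF, ← ENNReal.ofReal_mul (gaussianPDFReal_nonneg _ _ _), (hfd s).deriv]
  congr 1
  have h3 := (hgpos s).ne'
  have h4 := (hvpos s).ne'
  simp only [hf]
  change _ = g s * _
  field_simp

end Pool.Agent.Lib.MP_ec2ab1_pr_h53q2
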