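import Mathlib
import Pool.Agent.Lib.MP_ec2ab1_pr_h53q2.RowA
import Pool.Agent.Lib.MP_ec2ab1_pr_h53q2.RowB
import Pool.Agent.Lib.MP_ec2ab1_pr_h53q2.RowB23
import Pool.Agent.Lib.MP_ec2ab1_pr_h53q2.RowB7
import Pool.Agent.Lib.MP_ec2ab1_pr_h53q2.RowC
import Pool.Agent.Lib.MP_ec2ab1_pr_h53q2.RowC4
import Pool.Agent.Lib.MP_ec2ab1_pr_h53q2.RowD13
import Pool.Agent.Lib.MP_ec2ab1_pr_h53q2.RowD2

set_option autoImplicit false

namespace Pool.Agent.Lib.MP_ec2ab1_pr_h53q2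

theorem w_pos (n : ℕ) : 0 < w n := by
  unfold w; positivity

end Pool.Agent.Lib.MP_ec2ab1_pr_h53q2
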