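import Mathlib
import Pool.Agent.Lib.MP_ec2ab1_pr_h53q2.Rows

set_option autoImplicit false

namespace Pool.Agent.Lib.MP_ec2ab1_pr_h53q2

open MeasureTheory ProbabilityTheory Polynomial
open scoped ENNReal NNReal
open Pool.Agent.Lib.MP_ec2ab1_pr_h25b (ga et GG bf kf bf_le kf_ge kf_le bf_nonneg kf_nonneg
  measurable_bf measurable_kf integrable_bdd)

theorem der_PS' (N : ℕ) (c : ℕ → ℝ) :
    derivative (PS N c) = ∑ n ∈ Finset.range N, C (c (n + 1) * ((n + 1 : ℝ) / 2)) * HP n := by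
  rw [PS, derivative_sum, Finset.sum_range_succ']
  have h0 : derivative (C (c 0) * HP 0) = 0 := by
    rw [derivative_C_mul, HP_deriv]; simp
  rw [h0, add_zero]
  refine Finset.sum_congr rfl fun n _ => ?_
  rw [derivative_C_mul, HP_deriv, C_mul, mul_assoc]
  simp

theorem L_HP (n : ℕ) (s : ℝ) :
    s * (derivative (HP n)).eval s - 2 * (derivative (derivative (HP n))).eval s =
      (n : ℝ) * (HP n).eval s := by
  rcases n with _ | n
  · simp [HP]
  · rw [HP_deriv (n + 1)]
    simp only [Nat.add_sub_cancel, derivative_C_mul, eval_mul, eval_C, HP, eval_sub, eval_X]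
    ring

theorem L_PS' (N : ℕ) (c : ℕ → ℝ) (s : ℝ) :
    s * (derivative (PS N c)).eval s - 2 * (derivative (derivative (PS N c))).eval s =
      ∑ n ∈ Finset.range (N + 1), (n : ℝ) * c n * (HP n).eval s := by
  simp only [PS, derivative_sum, derivative_C_mul, eval_finsetSum, eval_mul, eval_C]
  rw [Finset.mul_sum, Finset.mul_sum, ← Finset.sum_sub_distrib]
  refine Finset.sum_congr rfl fun n _ => ?_
  have h := L_HP n s
  linear_combination c n * h

theorem integrable_eval (g : ℝ[X]) : Integrable (fun s => g.eval s) GG := by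
  simpa using integrable_poly g (F := fun _ => 1) measurable_const (K := 1) (by simp)

theorem w_succ (n : ℕ) : w (n + 1) = ((n + 1 : ℝ) / 2) * w n := by
  unfold w
  rw [Nat.factorial_succ, pow_succ]
  push_cast
  field_simp

theorem inner_der' (N : ℕ) (c d : ℕ → ℝ) :
    ∫ s, (derivative (PS N c)).eval s * (derivative (PS N d)).eval s ∂GG =
      1 / 2 * ∑ n ∈ Finset.range (N + 1), (n : ℝ) * w n * (c n * d n) := by
  rw [Finset.sum_range_succ']
  simp only [der_PS', eval_finsetSum, eval_mul, eval_C, Finset.sum_mul_sum]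
  have hi : ∀ i j : ℕ, Integrable (fun s => c (i + 1) * ((i + 1 : ℝ) / 2) * (HP i).eval s *
      (d (j + 1) * ((j + 1 : ℝ) / 2) * (HP j).eval s)) GG := by
    intro i j
    have := (integrable_eval (HP i * HP j)).const_mul
      (c (i + 1) * ((i + 1 : ℝ) / 2) * (d (j + 1) * ((j + 1 : ℝ) / 2)))
    refine this.congr (Filter.Eventually.of_forall fun s => ?_)
    simp only [eval_mul]
    ring
  rw [integral_finsetSum _ fun i _ => integrable_finsetSum _ fun j _ => hi i j]
  have hrow : ∀ i ∈ Finset.range N, ∫ s, ∑ j ∈ Finset.range N,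
      c (i + 1) * ((i + 1 : ℝ) / 2) * (HP i).eval s *
      (d (j + 1) * ((j + 1 : ℝ) / 2) * (HP j).eval s) ∂GG =
      1 / 2 * (((i + 1 : ℕ) : ℝ) * w (i + 1) * (c (i + 1) * d (i + 1))) := by
    intro i hi'
    rw [integral_finsetSum _ fun j _ => hi i j]
    rw [Finset.sum_eq_single i]
    · have : (fun s => c (i + 1) * ((i + 1 : ℝ) / 2) * (HP i).eval s *
          (d (i + 1) * ((i + 1 : ℝ) / 2) * (HP i).eval s)) = fun s =>
          (c (i + 1) * ((i + 1 : ℝ) / 2) * (d (i + 1) * ((i + 1 : ℝ) / 2))) *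
            ((HP i).eval s * (HP i).eval s) := by
        funext s; ring
      rw [this, integral_const_mul, HP_orth, if_pos rfl, w_succ]
      push_cast
      ring
    · intro j _ hij
      have : (fun s => c (i + 1) * ((i + 1 : ℝ) / 2) * (HP i).eval s *
          (d (j + 1) * ((j + 1 : ℝ) / 2) * (HP j).eval s)) = fun s =>
          (c (i + 1) * ((i + 1 : ℝ) / 2) * (d (j + 1) * ((j + 1 : ℝ) / 2))) *
            ((HP i).eval s * (HP j).eval s) := by
        funext s; ring
      rw [this, integral_const_mul, HP_orth, if_neg (Ne.symm hij), mul_zero]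
    · intro h; exact absurd hi' h
  rw [Finset.sum_congr rfl hrow, ← Finset.mul_sum]
  simp

section coef
variable {p : ℝ → ℝ} {M : ℝ}

theorem hq_zero : hq 0 = 1 := by simp [hq]

theorem hq_one : hq 1 = X := by simp [hq, hermite_one]

theorem hq_two_eval (x : ℝ) : (hq 2).eval x = (x ^ 2 - 1) / 2 := by
  have : hermite 2 = X * X - 1 := by
    rw [show (2 : ℕ) = 1 + 1 from rfl, hermite_succ, hermite_one]; simp
  simp [hq, this]
  ring

theorem HP_two_eval (s : ℝ) : (HP 2).eval s = s ^ 2 / 4 - 1 / 2 := by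
  simp only [HP, mul_one, derivative_one, sub_zero, derivative_mul, derivative_C, zero_mul,
    derivative_X, zero_add, eval_sub, eval_mul, eval_C, eval_X]
  ring

theorem second_mom {F : ℝ → ℝ} (hF : Measurable F) {K : ℝ} (hK : ∀ s, |F s| ≤ K)
    (h1 : ∫ s, F s ∂GG = 1) (h2 : ∫ s, (HP 2).eval s * F s ∂GG = 0) :
    ∫ s, s ^ 2 * F s ∂GG = 2 := by
  have e : ∀ s : ℝ, s ^ 2 * F s = 4 * ((HP 2).eval s * F s) + 2 * F s := by
    intro s; rw [HP_two_eval]; ring
  have i1 : Integrable (fun s => (HP 2).eval s * F s) GG := integrable_poly _ hF hK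
  have i2 : Integrable F GG := by
    simpa using integrable_poly 1 hF hK
  simp_rw [e]
  rw [integral_add (i1.const_mul 4) (i2.const_mul 2), integral_const_mul, integral_const_mul, h1,
    h2]
  norm_num

end coef

theorem hquad {a b c m M v : ℝ} (hm : 0 < m) (hmM : m < M) (hv : m ≤ v) (hvM : v ≤ M)
    (ha : 0 < a) (hc : 0 ≤ c)
    (he1 : 0 ≤ (1 - a * m ^ 2 / M ^ 2) * (c * m / M ^ 2 - 1) - b ^ 2 * m ^ 3 / (4 * M ^ 4))
    (he2 : 0 ≤ (1 - a) * (c / M - 1) - b ^ 2 / (4 * M)) :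
    0 ≤ (1 - a * ((M + m) * v - m * M) / M ^ 2) * (c * v / M ^ 2 - 1) -
      b ^ 2 * ((M + m) * v - m * M) * v / (4 * M ^ 4) := by
  have hM : 0 < M := hm.trans hmM
  set h : ℝ → ℝ := fun v => (1 - a * ((M + m) * v - m * M) / M ^ 2) * (c * v / M ^ 2 - 1) -
      b ^ 2 * ((M + m) * v - m * M) * v / (4 * M ^ 4) with hdef
  have h1 : 0 ≤ h m := by
    have : h m = (1 - a * m ^ 2 / M ^ 2) * (c * m / M ^ 2 - 1) - b ^ 2 * m ^ 3 / (4 * M ^ 4) := by
      simp only [hdef]; ring
    rw [this]; exact he1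
  have h2 : 0 ≤ h M := by
    have : h M = (1 - a) * (c / M - 1) - b ^ 2 / (4 * M) := by
      simp only [hdef]; field_simp; ring
    rw [this]; exact he2
  have key : (M - m) * h v = (M - v) * h m + (v - m) * h M +
      (M + m) * (a * c / M ^ 4 + b ^ 2 / (4 * M ^ 4)) * ((M - m) * (M - v) * (v - m)) := by
    simp only [hdef]; field_simp; ring
  have h3 : 0 ≤ (M - m) * h v := by
    rw [key]
    have e1 : 0 ≤ (M - v) * h m := mul_nonneg (by linarith) h1
    have e2 : 0 ≤ (v - m) * h M := mul_nonneg (by linarith) h2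
    have e3 : 0 ≤ (M + m) * (a * c / M ^ 4 + b ^ 2 / (4 * M ^ 4)) * ((M - m) * (M - v) * (v - m)) := by
      have : 0 ≤ (M - m) * (M - v) * (v - m) :=
        mul_nonneg (mul_nonneg (by linarith) (by linarith)) (by linarith)
      positivity
    linarith
  exact nonneg_of_mul_nonneg_right h3 (by linarith)

theorem pointwise {a b c m M v ub P q : ℝ} (hm : 0 < m) (hmM : m < M) (hv : m ≤ v) (hvM : v ≤ M)
    (hub : ub = (M + m) * v - m * M) (ha : 0 < a) (ha1 : a < 1) (hc : 0 ≤ c)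
    (he1 : 0 ≤ (1 - a * m ^ 2 / M ^ 2) * (c * m / M ^ 2 - 1) - b ^ 2 * m ^ 3 / (4 * M ^ 4))
    (he2 : 0 ≤ (1 - a) * (c / M - 1) - b ^ 2 / (4 * M)) :
    (a * P ^ 2 + b * P * q - c * q ^ 2) / M ^ 2 + q ^ 2 / v ≤
      2 * P * ((a * P + b / 2 * q) / M ^ 2) - ub * ((a * P + b / 2 * q) / M ^ 2) ^ 2 := by
  have hM : 0 < M := hm.trans hmM
  have hv0 : 0 < v := hm.trans_le hv
  have hq := hquad hm hmM hv hvM ha hc he1 he2
  rw [← hub] at hq
  have hubM : ub ≤ M ^ 2 := by rw [hub]; nlinarith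
  have hub0 : 0 < ub := by
    rw [hub]; nlinarith
  have hal : 0 < M ^ 2 - a * ub := by nlinarith
  rw [← sub_nonneg]
  have key : (M ^ 2 - a * ub) * (2 * P * ((a * P + b / 2 * q) / M ^ 2) -
      ub * ((a * P + b / 2 * q) / M ^ 2) ^ 2 -
      ((a * P ^ 2 + b * P * q - c * q ^ 2) / M ^ 2 + q ^ 2 / v)) =
      a / M ^ 4 * ((M ^ 2 - a * ub) * P - ub * b / 2 * q) ^ 2 + M ^ 2 / v * q ^ 2 *
        ((1 - a * ub / M ^ 2) * (c * v / M ^ 2 - 1) - b ^ 2 * ub * v / (4 * M ^ 4)) := by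
    field_simp
    ring
  refine nonneg_of_mul_nonneg_right (a := M ^ 2 - a * ub) ?_ hal
  rw [key]
  positivity

end Pool.Agent.Lib.MP_ec2ab1_pr_h53q2
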