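import Mathlib
import Pool.Agent.Lib.MP_ec2ab1_pr_h53q2.Asm

set_option autoImplicit false

namespace Pool.Agent.Lib.MP_ec2ab1_pr_h53q2

open MeasureTheory ProbabilityTheory Polynomial
open scoped ENNReal NNReal Topology

theorem csq_shift (s : ℕ → ℝ) (β : ℝ) (n : ℕ) (hn : n ≠ 0) :
    csq (fun k => s k + if k = 0 then β else 0) n = csq s n + 2 * β * s n := by
  unfold csq
  have e : ∀ ij : ℕ × ℕ, (s ij.1 + if ij.1 = 0 then β else 0) * (s ij.2 + if ij.2 = 0 then β else 0)
      = s ij.1 * s ij.2 + (if ij.1 = 0 then β * s ij.2 else 0) + (if ij.2 = 0 then β * s ij.1 else 0)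
        + (if ij.1 = 0 then (if ij.2 = 0 then β * β else 0) else 0) := by
    intro ij
    split_ifs <;> ring
  rw [Finset.sum_congr rfl fun ij _ => e ij, Finset.sum_add_distrib, Finset.sum_add_distrib,
    Finset.sum_add_distrib]
  have h1 : ∑ ij ∈ Finset.HasAntidiagonal.antidiagonal n,
      (if ij.1 = 0 then β * s ij.2 else 0) = β * s n := by
    rw [Finset.sum_eq_single (0, n)]
    · simp
    · rintro ⟨i, j⟩ hij hne
      have : i ≠ 0 := by
        rintro rfl
        apply hne
        have := Finset.HasAntidiagonal.mem_antidiagonal.1 hij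
        simp only [zero_add] at this
        rw [this]
      simp [this]
    · intro h
      exact absurd (Finset.HasAntidiagonal.mem_antidiagonal.2 (zero_add n)) h
  have h2 : ∑ ij ∈ Finset.HasAntidiagonal.antidiagonal n,
      (if ij.2 = 0 then β * s ij.1 else 0) = β * s n := by
    rw [Finset.sum_eq_single (n, 0)]
    · simp
    · rintro ⟨i, j⟩ hij hne
      have : j ≠ 0 := by
        rintro rfl
        apply hne
        have := Finset.HasAntidiagonal.mem_antidiagonal.1 hij
        simp only [add_zero] at this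
        rw [this]
      simp [this]
    · intro h
      exact absurd (Finset.HasAntidiagonal.mem_antidiagonal.2 (add_zero n)) h
  have h3 : ∑ ij ∈ Finset.HasAntidiagonal.antidiagonal n,
      (if ij.1 = 0 then (if ij.2 = 0 then β * β else 0) else 0) = 0 := by
    refine Finset.sum_eq_zero ?_
    rintro ⟨i, j⟩ hij
    have := Finset.HasAntidiagonal.mem_antidiagonal.1 hij
    simp only at this ⊢
    split_ifs with hi hj
    · exact absurd (by omega) hn
    · rfl
    · rfl
  rw [h1, h2, h3]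
  ring

/-- `r^n / sqrt n!` is summable -/
theorem summable_pow_div_sqrt (r : ℝ) (hr : 0 ≤ r) :
    Summable fun n : ℕ => r ^ n / Real.sqrt n.factorial := by
  have h := FloorSemiring.tendsto_pow_div_factorial_atTop ((2 * r) ^ 2)
  obtain ⟨C, hC⟩ := h.bddAbove_range
  have hC0 : 0 ≤ C := by
    have := hC ⟨0, rfl⟩
    simp at this
    linarith
  have hb : ∀ n : ℕ, r ^ n / Real.sqrt n.factorial ≤ Real.sqrt C * (1 / 2) ^ n := by
    intro n
    have h1 : ((2 * r) ^ 2) ^ n / (n.factorial : ℝ) ≤ C := hC ⟨n, rfl⟩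
    have h2 : (2 * r) ^ n / Real.sqrt n.factorial ≤ Real.sqrt C := by
      apply Real.le_sqrt_of_sq_le
      rw [div_pow, Real.sq_sqrt (by positivity), ← pow_mul, mul_comm n 2, pow_mul]
      exact h1
    have h3 : r ^ n / Real.sqrt n.factorial = (2 * r) ^ n / Real.sqrt n.factorial * (1 / 2) ^ n := by
      rw [mul_pow, div_mul_eq_mul_div, mul_comm ((2 : ℝ) ^ n), mul_assoc, ← mul_pow]
      norm_num
    rw [h3]
    exact mul_le_mul_of_nonneg_right h2 (by positivity)
  exact Summable.of_nonneg_of_le (fun n => by positivity) hb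
    ((summable_geometric_of_lt_one (by norm_num) (by norm_num)).mul_left _)

/-- the quadratic form in the coefficients is asymptotically nonnegative -/
theorem series_main {s : ℕ → ℝ} {M : ℝ} (hM : 0 ≤ M)
    (hs : ∀ n, |s n| ≤ M / Real.sqrt n.factorial) (h0 : s 0 = 1) (h1 : s 1 = 0) (h2 : s 2 = 0)
    {a b c : ℝ} (ha : 0 < a) (hb : 0 ≤ b)
    (hc : c + b ^ 2 / (4 * a) ≤ a * (2 * (360 / 361) * (1 + b / (4 * a)) ^ 2)) {ε : ℝ} (hε : 0 < ε) :
    ∃ N₀ : ℕ, ∀ N, N₀ ≤ N → -ε ≤ ∑ n ∈ Finset.range (N + 1), (n : ℝ) * w n *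
      (a * csq s n ^ 2 + b * (csq s n * s n) - c * s n ^ 2) := by
  set β : ℝ := b / (4 * a) with hβ
  have hβ0 : 0 ≤ β := by positivity
  set st : ℕ → ℝ := fun k => s k + if k = 0 then β else 0 with hst
  have hsum : ∀ r : ℝ, 0 ≤ r → Summable fun n => |st n| * r ^ n := by
    intro r hr
    have h3 : Summable fun n => |s n| * r ^ n := by
      refine Summable.of_nonneg_of_le (fun n => by positivity) (fun n => ?_)
        ((summable_pow_div_sqrt r hr).mul_left M)
      have := mul_le_mul_of_nonneg_right (hs n) (pow_nonneg hr n)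
      calc _ ≤ _ := this
        _ = _ := by ring
    refine (summable_nat_add_iff 1).1 ?_
    have h4 := (summable_nat_add_iff 1).2 h3
    refine h4.congr fun n => ?_
    simp [hst]
  have hk := series_ineq st hsum (by simp [hst, h0]; positivity) (by simp [hst, h1])
    (by simp [hst, h2])
  have hst0 : st 0 = 1 + β := by simp [hst, h0]
  rw [hst0] at hk
  set κ : ℝ := 2 * (360 / 361) * (1 + β) ^ 2 with hκ
  have hκ0 : 0 ≤ κ := by positivity
  -- convergence of the small series
  have hterm : ∀ n : ℕ, (n : ℝ) * w n * s n ^ 2 ≤ M ^ 2 * ((n : ℝ) ^ 1 * (1 / 2) ^ n) := by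
    intro n
    have h5 : s n ^ 2 ≤ M ^ 2 / n.factorial := by
      have := pow_le_pow_left₀ (abs_nonneg _) (hs n) 2
      rwa [sq_abs, div_pow, Real.sq_sqrt (by positivity)] at this
    have h6 : 0 ≤ (n : ℝ) * w n := mul_nonneg (by positivity) (w_pos n).le
    calc (n : ℝ) * w n * s n ^ 2 ≤ (n : ℝ) * w n * (M ^ 2 / n.factorial) :=
          mul_le_mul_of_nonneg_left h5 h6
      _ = _ := by
        unfold w
        have : (n.factorial : ℝ) ≠ 0 := by positivity
        rw [one_div, inv_pow]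
        field_simp
  have hn0 : ∀ n : ℕ, 0 ≤ (n : ℝ) * w n * s n ^ 2 := fun n =>
    mul_nonneg (mul_nonneg (by positivity) (w_pos n).le) (sq_nonneg _)
  have hS : Summable fun n : ℕ => (n : ℝ) * w n * s n ^ 2 := by
    refine Summable.of_nonneg_of_le hn0 hterm (Summable.mul_left _ ?_)
    exact summable_pow_mul_geometric_of_norm_lt_one 1 (by norm_num)
  set B : ℝ := ∑' n : ℕ, (n : ℝ) * w n * s n ^ 2 with hB
  have hB0 : 0 ≤ B := tsum_nonneg hn0
  have hBe : ∑' n : ℕ, ENNReal.ofReal (n * w n * st n ^ 2) = ENNReal.ofReal B := by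
    rw [hB, ENNReal.ofReal_tsum_of_nonneg hn0 hS]
    refine tsum_congr fun n => ?_
    rcases n with _ | n
    · simp
    · simp [hst]
  rw [hBe, ← ENNReal.ofReal_mul hκ0] at hk
  -- partial sums
  have ht := ENNReal.tendsto_nat_tsum (fun n : ℕ => ENNReal.ofReal (n * w n * csq st n ^ 2))
  have hlt : ∃ N₀ : ℕ, ∀ N, N₀ ≤ N →
      κ * B - ε / a ≤ ∑ n ∈ Finset.range N, (n : ℝ) * w n * csq st n ^ 2 := by
    have hnn : ∀ n : ℕ, 0 ≤ (n : ℝ) * w n * csq st n ^ 2 := fun n =>
      mul_nonneg (mul_nonneg (by positivity) (w_pos n).le) (sq_nonneg _)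
    by_cases hneg : κ * B - ε / a < 0
    · exact ⟨0, fun N _ => hneg.le.trans (Finset.sum_nonneg fun n _ => hnn n)⟩
    · push Not at hneg
      have h7 : ENNReal.ofReal (κ * B - ε / a) < ∑' n : ℕ, ENNReal.ofReal (n * w n * csq st n ^ 2) :=
        lt_of_lt_of_le ((ENNReal.ofReal_lt_ofReal_iff_of_nonneg hneg).2
          (by linarith [div_pos hε ha])) hk
      obtain ⟨N₀, hN⟩ := Filter.eventually_atTop.1 (ht.eventually (lt_mem_nhds h7))
      refine ⟨N₀, fun N hNN => ?_⟩
      have h8 := hN N hNN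
      rw [← ENNReal.ofReal_sum_of_nonneg fun n _ => hnn n] at h8
      exact (ENNReal.ofReal_lt_ofReal_iff_of_nonneg hneg).1 h8 |>.le
  obtain ⟨N₀, hN⟩ := hlt
  refine ⟨N₀, fun N hNN => ?_⟩
  have h9 := hN (N + 1) (by omega)
  have h10 : ∑ n ∈ Finset.range (N + 1), (n : ℝ) * w n * s n ^ 2 ≤ B :=
    hS.sum_le_tsum _ fun n _ => hn0 n
  have h11 : ∑ n ∈ Finset.range (N + 1), (n : ℝ) * w n *
      (a * csq s n ^ 2 + b * (csq s n * s n) - c * s n ^ 2) =
      a * ∑ n ∈ Finset.range (N + 1), (n : ℝ) * w n * csq st n ^ 2 -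
      (c + b ^ 2 / (4 * a)) * ∑ n ∈ Finset.range (N + 1), (n : ℝ) * w n * s n ^ 2 := by
    rw [Finset.mul_sum, Finset.mul_sum, ← Finset.sum_sub_distrib]
    refine Finset.sum_congr rfl fun n _ => ?_
    rcases n with _ | n
    · simp
    · rw [hst, csq_shift s β (n + 1) (by omega), hβ]
      field_simp
      ring
  rw [h11]
  have h12 : a * (κ * B - ε / a) ≤ a * ∑ n ∈ Finset.range (N + 1), (n : ℝ) * w n * csq st n ^ 2 :=
    mul_le_mul_of_nonneg_left h9 ha.le
  have h13 : a * (κ * B - ε / a) = a * κ * B - ε := by field_simp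
  rcases le_or_gt 0 (c + b ^ 2 / (4 * a)) with hcc | hcc
  · have h14 := mul_le_mul_of_nonneg_left h10 hcc
    have h15 := mul_le_mul_of_nonneg_right hc hB0
    nlinarith
  · have h16 : 0 ≤ ∑ n ∈ Finset.range (N + 1), (n : ℝ) * w n * s n ^ 2 :=
      Finset.sum_nonneg fun n _ => hn0 n
    have h17 : 0 ≤ a * κ * B := by positivity
    nlinarith [mul_nonneg (neg_nonneg.2 hcc.le) h16]

end Pool.Agent.Lib.MP_ec2ab1_pr_h53q2
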