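import Mathlib
import Pool.Agent.Lib.MP_ec2ab1_pr_h53q2.Ser

set_option autoImplicit false

namespace Pool.Agent.Lib.MP_ec2ab1_pr_h53q2

open MeasureTheory ProbabilityTheory Polynomial
open scoped ENNReal NNReal
open Pool.Agent.Lib.MP_ec2ab1_pr_h25b (ga et GG bf kf bf_le kf_ge kf_le bf_nonneg kf_nonneg
  measurable_bf measurable_kf integrable_bdd bf_neg int_bf int_kf)

variable {p : ℝ → ℝ}

theorem kf_le2 {m M : ℝ} (hp : Measurable p) (hm : 0 ≤ m) (h0 : ∀ x, m ≤ p x)
    (hpM : ∀ x, p x ≤ M) (s : ℝ) : kf p s ≤ (M + m) * bf p s - m * M := by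
  have hM : 0 ≤ M := hm.trans ((h0 0).trans (hpM 0))
  have hab : ∀ x, |p x| ≤ M := fun x => abs_le.2 ⟨by linarith [h0 x], hpM x⟩
  have hm1 : Measurable (fun x => p (s / 2 + x)) := by fun_prop
  have hm2 : Measurable (fun x => p (s / 2 - x)) := by fun_prop
  have i1 : Integrable (fun x => p (s / 2 + x)) et := integrable_bdd hm1 fun x => hab _
  have i2 : Integrable (fun x => p (s / 2 - x)) et := integrable_bdd hm2 fun x => hab _
  have i3 : Integrable (fun x => p (s / 2 + x) * p (s / 2 - x)) et := by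
    refine integrable_bdd (hm1.mul hm2) (C := M * M) fun x => ?_
    rw [abs_mul]
    exact mul_le_mul (hab _) (hab _) (abs_nonneg _) hM
  have hb := bf_neg hp s
  have h : 0 ≤ ∫ x, (M - p (s / 2 + x)) * (p (s / 2 - x) - m) ∂et :=
    integral_nonneg fun x => mul_nonneg (sub_nonneg.2 (hpM _)) (sub_nonneg.2 (h0 _))
  have e : ∀ x, (M - p (s / 2 + x)) * (p (s / 2 - x) - m) =
      M * p (s / 2 - x) + m * p (s / 2 + x) - p (s / 2 + x) * p (s / 2 - x) - m * M :=
    fun x => by ring
  simp_rw [e] at h
  have i4 : Integrable (fun x => M * p (s / 2 - x) + m * p (s / 2 + x)) et :=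
    (i2.const_mul M).add (i1.const_mul m)
  have i5 : Integrable (fun x => M * p (s / 2 - x) + m * p (s / 2 + x) -
    p (s / 2 + x) * p (s / 2 - x)) et := i4.sub i3
  rw [integral_sub i5 (integrable_const _), integral_sub i4 i3,
    integral_add (i2.const_mul M) (i1.const_mul m), integral_const_mul, integral_const_mul,
    hb] at h
  simp only [integral_const, probReal_univ, smul_eq_mul, mul_one, one_mul] at h
  have h1 : ∫ x, p (s / 2 + x) ∂et = bf p s := rfl
  have h2 : ∫ x, p (s / 2 + x) * p (s / 2 - x) ∂et = kf p s := rfl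
  rw [h1, h2] at h
  linarith

theorem bf_ge {m M : ℝ} (hp : Measurable p) (hm : 0 ≤ m) (h0 : ∀ x, m ≤ p x)
    (hpM : ∀ x, p x ≤ M) (s : ℝ) : m ≤ bf p s := by
  have hab : ∀ x, |p x| ≤ M := fun x => abs_le.2 ⟨by linarith [h0 x, hpM x], hpM x⟩
  have hm1 : Measurable (fun x => p (s / 2 + x)) := by fun_prop
  have i1 : Integrable (fun x => p (s / 2 + x)) et := integrable_bdd hm1 fun x => hab _
  have h := integral_mono (μ := et) (integrable_const m) i1 fun x => h0 _
  have h2 : ∫ x, p (s / 2 + x) ∂et = bf p s := rfl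
  rw [h2] at h
  simpa using h

/-- the main inequality -/
theorem main_fisher {m M : ℝ} (hm : 0 < m) (hmM : m < M) (hMm : M ^ 2 = 9 / 4 * m) (hm1 : m ≤ 1)
    (hp : Measurable p) (h0 : ∀ x, m ≤ p x) (hpM : ∀ x, p x ≤ M)
    (c0 : cf p 0 = 1) (c1 : cf p 1 = 0) (c2 : cf p 2 = 0) :
    fisher (GG.withDensity (fun s => ENNReal.ofReal (bf p s))) ≤
      fisher (GG.withDensity (fun s => ENNReal.ofReal (kf p s))) := by
  have hM : 0 < M := hm.trans hmM
  have hp0 : ∀ x, 0 ≤ p x := fun x => hm.le.trans (h0 x)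
  have hbm := measurable_bf hp
  have hkm := measurable_kf hp
  have hbM : ∀ s, bf p s ≤ M := bf_le hp hp0 hpM
  have hbm0 : ∀ s, m ≤ bf p s := bf_ge hp hm.le h0 hpM
  have hb0 : ∀ s, 0 ≤ bf p s := bf_nonneg hp0
  have hk0 : ∀ s, 0 ≤ kf p s := kf_nonneg hp0
  have hkM : ∀ s, kf p s ≤ M * M := fun s =>
    (kf_le hp hp0 hpM s).trans (mul_le_mul_of_nonneg_left (hbM s) hM.le)
  have hbabs : ∀ s, |bf p s| ≤ M := fun s => abs_le.2 ⟨by linarith [hb0 s], hbM s⟩
  have hkabs : ∀ s, |kf p s| ≤ M * M := fun s => abs_le.2 ⟨by nlinarith [hk0 s], hkM s⟩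
  -- moments
  have w0 : w 0 = 1 := by simp [w]
  have csq0 : csq (cf p) 0 = 1 := by simp [csq, c0]
  have csq2 : csq (cf p) 2 = 0 := by
    simp [csq, Finset.Nat.antidiagonal_succ, c0, c1, c2]
  have hb1 : ∫ s, bf p s ∂GG = 1 := by
    have := coef_bf hp hp0 hpM 0
    simpa [HP, w0, c0] using this
  have hk1 : ∫ s, kf p s ∂GG = 1 := by
    have := coef_kf hp hp0 hpM 0
    simpa [HP, w0, csq0] using this
  have hb2 : ∫ s, s ^ 2 * bf p s ∂GG = 2 := by
    refine second_mom hbm hbabs hb1 ?_
    rw [coef_bf hp hp0 hpM 2, c2, mul_zero]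
  have hk2 : ∫ s, s ^ 2 * kf p s ∂GG = 2 := by
    refine second_mom hkm hkabs hk1 ?_
    rw [coef_kf hp hp0 hpM 2, csq2, mul_zero]
  obtain ⟨v', hvc, hvd, K, hK⟩ := bf_smooth hp hp0 hpM
  have hK0 : 0 ≤ K := (abs_nonneg _).trans (hK 0)
  refine (fisher_upper hvd hvc hm hbm0 hbM hK hb1 hb2).trans ?_
  -- reduce to `ε`
  have hred : ∀ δ : ℝ, 0 < δ → δ ≤ 1 →
      ENNReal.ofReal (1 / 2 + ∫ s, v' s ^ 2 / bf p s ∂GG - δ * (1 + (K ^ 2 + 1) / m)) ≤
      fisher (GG.withDensity (fun s => ENNReal.ofReal (kf p s))) := by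
    intro δ hδ hδ1
    set s := cf p with hs
    set t := csq s with ht
    -- approximation of `v'`
    have hF : MemLp v' 2 GG := by
      refine MemLp.of_bound hvc.measurable.aestronglyMeasurable K
        (Filter.Eventually.of_forall fun x => ?_)
      exact hK x
    obtain ⟨N₁, hN₁⟩ := HP_complete hF (ε := δ ^ 2) (by positivity)
    obtain ⟨N₂, hN₂⟩ := series_main (s := s) (M := M) hM.le (fun n => cf_bound hp hp0 hpM n) c0 c1 c2
      (a := 91 / 100) (b := 27 / 50) (c := 2313 / 1000) (by norm_num) (by norm_num) (by norm_num)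
      (ε := 2 * M ^ 2 * δ) (by positivity)
    set N := max N₁ N₂ with hN
    have hA := hN₁ N (le_max_left _ _)
    have hB := hN₂ N (le_max_right _ _)
    -- coefficients of `v'`
    have hcoef : ∀ n : ℕ, (∫ x, (HP n).eval x * v' x ∂GG) / w n = s (n + 1) * ((n + 1 : ℝ) / 2) := by
      intro n
      have hmax1 : ∀ x, |bf p x| ≤ max M K := fun x => (hbabs x).trans (le_max_left _ _)
      have hmax2 : ∀ x, |v' x| ≤ max M K := fun x => (hK x).trans (le_max_right _ _)
      rw [int_parts hvd hvc hmax1 hmax2]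
      have e : ∀ x : ℝ, (x / 2 * (HP n).eval x - (derivative (HP n)).eval x) * bf p x =
          (HP (n + 1)).eval x * bf p x := by
        intro x
        simp only [HP, eval_sub, eval_mul, eval_C, eval_X]
        ring
      simp_rw [e]
      rw [coef_bf hp hp0 hpM (n + 1), w_succ, ← hs]
      have := (w_pos n).ne'
      field_simp
    set q : ℝ → ℝ := fun x => (derivative (PS N s)).eval x with hq
    have hA' : ∫ x, (v' x - q x) ^ 2 ∂GG ≤ δ ^ 2 := by
      refine le_trans (le_of_eq ?_) hA
      refine integral_congr_ae (Filter.Eventually.of_forall fun x => ?_)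
      simp only [hq, der_PS', eval_finsetSum, eval_mul, eval_C]
      congr 2
      exact Finset.sum_congr rfl fun n _ => by rw [hcoef n]
    set P : ℝ → ℝ := fun x => (derivative (PS N t)).eval x with hP
    set c' : ℕ → ℝ := fun n => (91 / 100 * t n + 27 / 50 / 2 * s n) / M ^ 2 with hc'
    set Θ : ℝ[X] := derivative (PS N c') with hΘ
    have hΘe : ∀ x, Θ.eval x = (91 / 100 * P x + 27 / 50 / 2 * q x) / M ^ 2 := by
      intro x
      simp only [hΘ, hP, hq, der_PS', eval_finsetSum, eval_mul, eval_C, hc', Finset.mul_sum,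
        ← Finset.sum_add_distrib, Finset.sum_div]
      refine Finset.sum_congr rfl fun n _ => ?_
      ring
    -- lower bound
    have hlow := fisher_lower (u := kf p) hkm hk0 hkM hk2 hk1 Θ
    refine le_trans (ENNReal.ofReal_le_ofReal ?_) hlow
    -- integrability
    have ipoly : ∀ (g : ℝ[X]) (F : ℝ → ℝ), Measurable F → (∃ C, ∀ x, |F x| ≤ C) →
        Integrable (fun x => g.eval x * F x) GG := by
      rintro g F hF ⟨C, hC⟩
      exact integrable_poly g hF hC
    have hbinv : ∀ x, |(bf p x)⁻¹| ≤ m⁻¹ := by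
      intro x
      rw [abs_of_nonneg (inv_nonneg.2 (hb0 x))]
      exact inv_anti₀ hm (hbm0 x)
    have iv1 : Integrable (fun x => v' x ^ 2 / bf p x) GG := by
      have hmm : Measurable (fun x => v' x ^ 2 / bf p x) :=
        (hvc.measurable.pow_const 2).div hbm
      refine integrable_bdd hmm (C := K ^ 2 * m⁻¹) fun x => ?_
      rw [div_eq_mul_inv, abs_mul, abs_pow]
      exact mul_le_mul (pow_le_pow_left₀ (abs_nonneg _) (hK x) 2) (hbinv x) (abs_nonneg _)
        (by positivity)
    have iq1 : Integrable (fun x => q x ^ 2 / bf p x) GG := by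
      refine (ipoly ((derivative (PS N s)) ^ 2) (fun x => (bf p x)⁻¹) hbm.inv ⟨_, hbinv⟩).congr
        (Filter.Eventually.of_forall fun x => ?_)
      simp only [hq, eval_pow, div_eq_mul_inv]
    have iq2 : Integrable (fun x => (v' x - q x) ^ 2) GG := by
      have e : ∀ x, (v' x - q x) ^ 2 = v' x ^ 2 - 2 * (q x * v' x) + q x ^ 2 := fun x => by ring
      simp_rw [e]
      refine Integrable.add (Integrable.sub ?_ (Integrable.const_mul ?_ 2)) ?_
      · refine integrable_bdd (hvc.measurable.pow_const 2) (C := K ^ 2) fun x => ?_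
        rw [abs_pow]
        exact pow_le_pow_left₀ (abs_nonneg _) (hK x) 2
      · exact ipoly _ _ hvc.measurable ⟨K, hK⟩
      · have := integrable_eval ((derivative (PS N s)) ^ 2)
        simpa [hq, eval_pow] using this
    -- comparison of `q` and `v'`
    have hcmp : ∫ x, v' x ^ 2 / bf p x ∂GG - δ * ((K ^ 2 + 1) / m) ≤ ∫ x, q x ^ 2 / bf p x ∂GG := by
      have hpt : ∀ x, v' x ^ 2 / bf p x - (δ * (K ^ 2 / m) + 1 / (δ * m) * (v' x - q x) ^ 2) ≤
          q x ^ 2 / bf p x := by
        intro x
        have hbx : 0 < bf p x := hm.trans_le (hbm0 x)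
        have h1 : v' x ^ 2 / bf p x - q x ^ 2 / bf p x ≤
            δ * (v' x ^ 2 / bf p x) + 1 / δ * ((v' x - q x) ^ 2 / bf p x) := by
          have h2 : 0 ≤ (δ * v' x - (v' x - q x)) ^ 2 / (δ * bf p x) := by positivity
          have h3 : 0 ≤ (v' x - q x) ^ 2 / bf p x := by positivity
          have h4 : (δ * v' x - (v' x - q x)) ^ 2 / (δ * bf p x) + (v' x - q x) ^ 2 / bf p x =
              δ * (v' x ^ 2 / bf p x) + 1 / δ * ((v' x - q x) ^ 2 / bf p x) -
              (v' x ^ 2 / bf p x - q x ^ 2 / bf p x) := by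
            field_simp
            ring
          linarith
        have h5 : v' x ^ 2 / bf p x ≤ K ^ 2 / m := by
          rw [← sq_abs (v' x)]
          exact div_le_div₀ (by positivity) (pow_le_pow_left₀ (abs_nonneg _) (hK x) 2) hm (hbm0 x)
        have h6 : (v' x - q x) ^ 2 / bf p x ≤ (v' x - q x) ^ 2 / m :=
          div_le_div_of_nonneg_left (sq_nonneg _) hm (hbm0 x)
        have h7 : 1 / δ * ((v' x - q x) ^ 2 / m) = 1 / (δ * m) * (v' x - q x) ^ 2 := by
          field_simp
        have h8 := mul_le_mul_of_nonneg_left h5 hδ.le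
        have h9 := mul_le_mul_of_nonneg_left h6 (by positivity : (0 : ℝ) ≤ 1 / δ)
        linarith
      have jj : Integrable (fun x => δ * (K ^ 2 / m) + 1 / (δ * m) * (v' x - q x) ^ 2) GG :=
        (integrable_const (δ * (K ^ 2 / m))).add (iq2.const_mul (1 / (δ * m)))
      have hint := integral_mono (μ := GG) (iv1.sub jj) iq1 hpt
      simp only [Pi.sub_apply] at hint
      rw [integral_sub iv1 jj,
        integral_add (integrable_const _) (iq2.const_mul _)] at hint
      simp only [integral_const, probReal_univ, smul_eq_mul, one_mul, integral_const_mul] at hint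
      have h10 : 1 / (δ * m) * ∫ x, (v' x - q x) ^ 2 ∂GG ≤ δ / m := by
        have := mul_le_mul_of_nonneg_left hA' (by positivity : (0 : ℝ) ≤ 1 / (δ * m))
        refine this.trans (le_of_eq ?_)
        field_simp
      have h11 : δ * (K ^ 2 / m) + δ / m = δ * ((K ^ 2 + 1) / m) := by
        field_simp
      linarith
    -- the linear part
    have hlin : ∫ x, (x * Θ.eval x - 2 * (derivative Θ).eval x) * kf p x ∂GG =
        2 * ∫ x, P x * Θ.eval x ∂GG := by
      have e1 : ∀ x, (x * Θ.eval x - 2 * (derivative Θ).eval x) * kf p x =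
          ∑ n ∈ Finset.range (N + 1), (n : ℝ) * c' n * ((HP n).eval x * kf p x) := by
        intro x
        rw [hΘ, L_PS', Finset.sum_mul]
        refine Finset.sum_congr rfl fun n _ => ?_
        ring
      simp_rw [e1]
      rw [integral_finsetSum _ fun n _ => (integrable_poly (HP n) hkm hkabs).const_mul _]
      rw [hP, hΘ, inner_der' N t c']
      simp_rw [integral_const_mul, coef_kf hp hp0 hpM]
      rw [Finset.mul_sum, Finset.mul_sum]
      refine Finset.sum_congr rfl fun n _ => ?_
      rw [← hs, ← ht]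
      ring
    -- pointwise
    have hpw : ∀ x, (91 / 100 * P x ^ 2 + 27 / 50 * P x * q x - 2313 / 1000 * q x ^ 2) / M ^ 2 +
        q x ^ 2 / bf p x ≤ 2 * P x * Θ.eval x - Θ.eval x ^ 2 * kf p x := by
      intro x
      have h1 := pointwise (a := 91 / 100) (b := 27 / 50) (c := 2313 / 1000) (m := m) (M := M)
        (v := bf p x) (ub := (M + m) * bf p x - m * M) (P := P x) (q := q x) hm hmM (hbm0 x) (hbM x)
        rfl (by norm_num) (by norm_num) (by norm_num) ?_ ?_
      · have h2 := kf_le2 hp hm.le h0 hpM x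
        have h3 := mul_le_mul_of_nonneg_left h2 (sq_nonneg (Θ.eval x))
        rw [hΘe x] at h3 ⊢
        linarith
      · -- at `m`
        have e4 : M ^ 4 = (9 / 4 * m) ^ 2 := by rw [← hMm]; ring
        rw [hMm, e4]
        have : (0 : ℝ) < m := hm
        field_simp
        nlinarith
      · -- at `M`
        have hM32 : M ≤ 3 / 2 := by nlinarith
        have : 27 / 50 = (27 / 50 : ℝ) := rfl
        have e5 : (1 - 91 / 100 : ℝ) * (2313 / 1000 / M - 1) - (27 / 50) ^ 2 / (4 * M) =
            (9 / 100 * (2313 / 1000 - M) - (27 / 50) ^ 2 / 4) / M := by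
          field_simp
          ring
        rw [e5]
        refine div_nonneg ?_ hM.le
        nlinarith
    -- integrate
    have iP1 : Integrable (fun x => (91 / 100 * P x ^ 2 + 27 / 50 * P x * q x -
        2313 / 1000 * q x ^ 2) / M ^ 2) GG := by
      refine (integrable_eval (C (1 / M ^ 2) * (C (91 / 100) * (derivative (PS N t)) ^ 2 +
        C (27 / 50) * (derivative (PS N t)) * (derivative (PS N s)) -
        C (2313 / 1000) * (derivative (PS N s)) ^ 2))).congr (Filter.Eventually.of_forall fun x => ?_)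
      simp only [hP, hq, eval_mul, eval_sub, eval_add, eval_C, eval_pow]
      ring
    have iP2 : Integrable (fun x => 2 * P x * Θ.eval x) GG := by
      refine (integrable_eval (C 2 * (derivative (PS N t)) * Θ)).congr
        (Filter.Eventually.of_forall fun x => ?_)
      simp only [hP, eval_mul, eval_C]
    have iP3 : Integrable (fun x => Θ.eval x ^ 2 * kf p x) GG := by
      refine (integrable_poly (Θ ^ 2) hkm hkabs).congr (Filter.Eventually.of_forall fun x => ?_)
      simp only [eval_pow]
    have iP4 : Integrable (fun x => (x * Θ.eval x - 2 * (derivative Θ).eval x) * kf p x) GG := by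
      refine (integrable_poly (X * Θ - C 2 * derivative Θ) hkm hkabs).congr
        (Filter.Eventually.of_forall fun x => ?_)
      simp only [eval_sub, eval_mul, eval_X, eval_C]
    have hfin := integral_mono (μ := GG) (iP1.add iq1) (iP2.sub iP3) hpw
    simp only [Pi.sub_apply, Pi.add_apply] at hfin
    rw [integral_add iP1 iq1, integral_sub iP2 iP3] at hfin
    -- value of the quadratic form
    have hquad : ∫ x, (91 / 100 * P x ^ 2 + 27 / 50 * P x * q x -
        2313 / 1000 * q x ^ 2) / M ^ 2 ∂GG = 1 / (2 * M ^ 2) *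
        ∑ n ∈ Finset.range (N + 1), (n : ℝ) * w n *
      (91 / 100 * csq s n ^ 2 + 27 / 50 * (csq s n * s n) - 2313 / 1000 * s n ^ 2) := by
      have e2 : ∀ x, (91 / 100 * P x ^ 2 + 27 / 50 * P x * q x - 2313 / 1000 * q x ^ 2) / M ^ 2 =
          1 / M ^ 2 * (91 / 100 * (P x * P x) + 27 / 50 * (P x * q x) -
            2313 / 1000 * (q x * q x)) := by
        intro x; ring
      simp_rw [e2]
      have j1 : Integrable (fun x => P x * P x) GG := by
        refine (integrable_eval ((derivative (PS N t)) * (derivative (PS N t)))).congr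
          (Filter.Eventually.of_forall fun x => ?_)
        simp only [hP, eval_mul]
      have j2 : Integrable (fun x => P x * q x) GG := by
        refine (integrable_eval ((derivative (PS N t)) * (derivative (PS N s)))).congr
          (Filter.Eventually.of_forall fun x => ?_)
        simp only [hP, hq, eval_mul]
      have j3 : Integrable (fun x => q x * q x) GG := by
        refine (integrable_eval ((derivative (PS N s)) * (derivative (PS N s)))).congr
          (Filter.Eventually.of_forall fun x => ?_)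
        simp only [hq, eval_mul]
      have j4 : Integrable (fun x => 91 / 100 * (P x * P x) + 27 / 50 * (P x * q x)) GG :=
        (j1.const_mul _).add (j2.const_mul _)
      rw [integral_const_mul, integral_sub j4 (j3.const_mul _),
        integral_add (j1.const_mul _) (j2.const_mul _), integral_const_mul, integral_const_mul,
        integral_const_mul, hP, hq, inner_der', inner_der', inner_der', ← ht]
      simp only [Finset.mul_sum, ← Finset.sum_add_distrib, ← Finset.sum_sub_distrib]
      refine Finset.sum_congr rfl fun n _ => ?_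
      field_simp
    rw [hquad] at hfin
    have hB' : -δ ≤ 1 / (2 * M ^ 2) * ∑ n ∈ Finset.range (N + 1), (n : ℝ) * w n *
      (91 / 100 * csq s n ^ 2 + 27 / 50 * (csq s n * s n) - 2313 / 1000 * s n ^ 2) := by
      have := mul_le_mul_of_nonneg_left hB (by positivity : (0 : ℝ) ≤ 1 / (2 * M ^ 2))
      refine le_trans (le_of_eq ?_) this
      field_simp
    have hsplit : ∫ x, (x * Θ.eval x - 2 * (derivative Θ).eval x - Θ.eval x ^ 2) * kf p x ∂GG =
        ∫ x, (x * Θ.eval x - 2 * (derivative Θ).eval x) * kf p x ∂GG -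
        ∫ x, Θ.eval x ^ 2 * kf p x ∂GG := by
      rw [← integral_sub iP4 iP3]
      refine integral_congr_ae (Filter.Eventually.of_forall fun x => ?_)
      simp only
      ring
    have h2P : ∫ x, 2 * P x * Θ.eval x ∂GG = 2 * ∫ x, P x * Θ.eval x ∂GG := by
      rw [← integral_const_mul]
      refine integral_congr_ae (Filter.Eventually.of_forall fun x => ?_)
      simp only
      ring
    rw [h2P] at hfin
    rw [hsplit, hlin]
    have : δ * (1 + (K ^ 2 + 1) / m) = δ + δ * ((K ^ 2 + 1) / m) := by ring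
    rw [this]
    linarith
  -- let `δ → 0`
  have hlim : Filter.Tendsto (fun δ : ℝ => ENNReal.ofReal (1 / 2 + ∫ s, v' s ^ 2 / bf p s ∂GG -
      δ * (1 + (K ^ 2 + 1) / m))) (nhdsWithin 0 (Set.Ioi 0))
      (nhds (ENNReal.ofReal (1 / 2 + ∫ s, v' s ^ 2 / bf p s ∂GG))) := by
    have h1 : Filter.Tendsto (fun δ : ℝ => 1 / 2 + ∫ s, v' s ^ 2 / bf p s ∂GG -
      δ * (1 + (K ^ 2 + 1) / m)) (nhds 0) (nhds (1 / 2 + ∫ s, v' s ^ 2 / bf p s ∂GG -
      0 * (1 + (K ^ 2 + 1) / m))) := by
      exact (Continuous.tendsto (by fun_prop) 0)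
    rw [zero_mul, sub_zero] at h1
    exact ENNReal.tendsto_ofReal (h1.mono_left nhdsWithin_le_nhds)
  refine le_of_tendsto hlim ?_
  filter_upwards [Ioo_mem_nhdsGT (zero_lt_one' ℝ)] with δ hδ
  exact hred δ hδ.1 hδ.2.le

end Pool.Agent.Lib.MP_ec2ab1_pr_h53q2
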