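import Mathlib
import Pool.Agent.Lib.MP_ec2ab1_pr_h53q2.Fin

set_option autoImplicit false

/-!
# The Fisher information inequality for laws with two-sided density ratio bounds
-/

namespace Pool.Agent.Lib.MP_ec2ab1_pr_h53q2

open MeasureTheory ProbabilityTheory Polynomial
open scoped ENNReal NNReal
open Pool.Agent.Lib.MP_ec2ab1_pr_h25b (ga et GG bf kf exists_density conv_density conv_shift)

/-- a law between `m` and `M` times the standard normal law has a density between `m` and `M` -/
theorem exists_density2 {μ : Measure ℝ} [IsProbabilityMeasure μ] {m M : ℝ}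
    (hM : 0 < M) (hmM : m ≤ M) (hlow : ENNReal.ofReal m • ga ≤ μ) (h : μ ≤ ENNReal.ofReal M • ga) :
    ∃ p : ℝ → ℝ, Measurable p ∧ (∀ x, m ≤ p x) ∧ (∀ x, p x ≤ M) ∧
      μ = ga.withDensity (fun x => ENNReal.ofReal (p x)) := by
  obtain ⟨p, hp, h0, hpM, -, hd⟩ := exists_density hM h
  refine ⟨fun x => max (p x) m, hp.max measurable_const, fun x => le_max_right _ _,
    fun x => max_le (hpM x) hmM, ?_⟩
  rw [hd]
  refine withDensity_congr_ae ?_
  have hae : (fun _ => ENNReal.ofReal m) ≤ᵐ[ga] fun x => ENNReal.ofReal (p x) := by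
    refine ae_le_of_forall_setLIntegral_le_of_sigmaFinite measurable_const fun s hs _ => ?_
    rw [setLIntegral_const, ← withDensity_apply _ hs, ← hd]
    exact hlow s
  filter_upwards [hae] with x hx
  rw [max_eq_left]
  exact (ENNReal.ofReal_le_ofReal_iff (h0 x)).1 hx

theorem fisher_ineq {m M : ℝ} (hm : 0 < m) (hMm : M ^ 2 ≤ 9 / 4 * m)
    (μ : Measure ℝ) [IsProbabilityMeasure μ] (hμ : MemLp (fun x : ℝ => x) 2 μ)
    (hvar : variance (fun x : ℝ => x) μ = 1)
    (hlow : ENNReal.ofReal m • gaussianReal 0 1 ≤ μ.map (fun x => x - ∫ y, y ∂μ))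
    (hdom : μ.map (fun x => x - ∫ y, y ∂μ) ≤ ENNReal.ofReal M • gaussianReal 0 1) :
    fisher ((μ.prod (gaussianReal 0 1)).map (fun p : ℝ × ℝ => p.1 + p.2)) ≤
      fisher ((μ.prod μ).map (fun p : ℝ × ℝ => p.1 + p.2)) := by
  set a : ℝ := ∫ y, y ∂μ with ha
  have hsub : Measurable (fun x : ℝ => x - a) := by fun_prop
  have hprob : IsProbabilityMeasure (μ.map (fun x => x - a)) :=
    Measure.isProbabilityMeasure_map hsub.aemeasurable
  -- `m ≤ 1` and `M ≤ M'`
  have hm1 : m ≤ 1 := by
    have h := hlow Set.univ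
    simp only [Measure.smul_apply, measure_univ, smul_eq_mul, mul_one] at h
    exact ENNReal.ofReal_le_one.1 h
  have hM1 : 1 ≤ M := by
    have h := hdom Set.univ
    simp only [Measure.smul_apply, measure_univ, smul_eq_mul, mul_one] at h
    exact ENNReal.one_le_ofReal.1 h
  set r : ℝ := Real.sqrt m with hr
  have hr0 : 0 < r := Real.sqrt_pos.2 hm
  have hr2 : r ^ 2 = m := Real.sq_sqrt hm.le
  have hr1 : r ≤ 1 := Real.sqrt_le_one.2 hm1
  have hM' : M ≤ 3 / 2 * r := by
    refine le_of_sq_le_sq ?_ (by positivity)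
    rw [mul_pow, hr2]; linarith
  have hdom' : μ.map (fun x => x - a) ≤ ENNReal.ofReal (3 / 2 * r) • gaussianReal 0 1 := by
    refine hdom.trans ?_
    intro s
    simp only [Measure.smul_apply, smul_eq_mul]
    gcongr
  have hmr : m < 3 / 2 * r := by rw [← hr2]; nlinarith
  obtain ⟨p, hp, h0, hpM, hd⟩ := exists_density2 (by positivity) hmr.le hlow hdom'
  have hp0 : ∀ x, 0 ≤ p x := fun x => hm.le.trans (h0 x)
  -- moments
  have hi1 : Integrable (fun x : ℝ => x) μ := hμ.integrable (by norm_num)
  have L0 : MemLp (fun x : ℝ => x) 2 (μ.map (fun x => x - a)) := by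
    rw [memLp_map_measure_iff (by fun_prop) hsub.aemeasurable]
    exact hμ.sub (memLp_const a)
  have m1 : ∫ x, x ∂(μ.map (fun x => x - a)) = 0 := by
    rw [integral_map hsub.aemeasurable (by fun_prop), integral_sub hi1 (integrable_const _), ← ha]
    simp
  have m2 : ∫ x, x ^ 2 ∂(μ.map (fun x => x - a)) = 1 := by
    rw [integral_map hsub.aemeasurable (by fun_prop)]
    rw [variance_eq_integral (by fun_prop)] at hvar
    exact hvar
  have hval : ∀ f : ℝ → ℝ, ∫ x, f x * p x ∂ga = ∫ x, f x ∂(μ.map (fun x => x - a)) := by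
    intro f
    rw [hd, integral_withDensity_eq_integral_toReal_smul hp.ennreal_ofReal
      (Filter.Eventually.of_forall fun _ => ENNReal.ofReal_lt_top)]
    refine integral_congr_ae (Filter.Eventually.of_forall fun x => ?_)
    simp only [smul_eq_mul]
    rw [ENNReal.toReal_ofReal (hp0 x), mul_comm]
  have c0 : cf p 0 = 1 := by
    unfold cf
    rw [hval, hq_zero]
    simp
  have c1 : cf p 1 = 0 := by
    unfold cf
    rw [hval, hq_one]
    simpa using m1
  have c2 : cf p 2 = 0 := by
    unfold cf
    rw [hval]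
    simp_rw [hq_two_eval]
    rw [integral_div, integral_sub _ (integrable_const _), m2]
    · simp
    · exact L0.integrable_sq
  have main := main_fisher (M := 3 / 2 * r) hm hmr (by rw [mul_pow, hr2]; norm_num) hm1 hp h0 hpM
    c0 c1 c2
  -- the two densities
  have hk : ((μ.map (fun x => x - a)).prod (μ.map (fun x => x - a))).map
      (fun z : ℝ × ℝ => z.1 + z.2) = GG.withDensity (fun s => ENNReal.ofReal (kf p s)) := by
    rw [hd]
    exact conv_density hp hp hp0 hpM hp0 hpM
  have hb : ((μ.map (fun x => x - a)).prod ga).map (fun z : ℝ × ℝ => z.1 + z.2) =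
      GG.withDensity (fun s => ENNReal.ofReal (bf p s)) := by
    have hone : ga = ga.withDensity (fun _ => ENNReal.ofReal 1) := by
      rw [ENNReal.ofReal_one]
      exact withDensity_one.symm
    rw [hd]
    conv_lhs => rw [show (ga.withDensity (fun x => ENNReal.ofReal (p x))).prod ga =
      (ga.withDensity (fun x => ENNReal.ofReal (p x))).prod
        (ga.withDensity (fun _ => ENNReal.ofReal 1)) by rw [← hone]]
    rw [conv_density hp measurable_const hp0 hpM (fun _ => zero_le_one)
      (fun _ => hM1.trans hM')]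
    simp only [mul_one]
    rfl
  have hg0 : ga.map (fun x => x - 0) = ga := by
    simp
  rw [conv_shift μ μ a a, hk, conv_shift μ (gaussianReal 0 1) a 0, hg0, hb, fisher_shift,
    fisher_shift]
  exact main

end Pool.Agent.Lib.MP_ec2ab1_pr_h53q2
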